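import Pool.Agent.L5helper84.BR.SM2
import Pool.Agent.L5helper17.RF.Mel

set_option autoImplicit false

/-!
Abel summation against the weights.
-/

namespace Pool.Agent.L5helper84.BR

open Finset MeasureTheory
open Pool.Agent.Q48.MDS (kronTwo kron FundDisc kron_mul abs_kron_le kron_one_left)
open Pool.Agent.L5helper17.RF (wt g1 pc sc g1_eq_min g1_of_gt wt_one hasMellin_g1' wt_cont natDegree_pc)

/-- the coefficients -/
noncomputable def cF (m d : ℕ) : ℝ := by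
  classical
  exact if FundDisc d ∧ 1 < d then (kron d m : ℝ) else 0

lemma SS_cF (m x : ℕ) : SS m x = ∑ d ∈ Icc 1 x, cF m d := rfl

lemma abel (c : ℕ → ℂ) (F : ℕ → ℂ) (D : ℕ) : ∑ d ∈ Icc 1 D, c d * F d =
    (∑ j ∈ Icc 1 D, c j) * F (D + 1) + ∑ d ∈ Icc 1 D, (∑ j ∈ Icc 1 d, c j) * (F d - F (d + 1)) := by
  induction D with
  | zero => simp
  | succ n ih =>
    rw [sum_Icc_succ_top (by omega), ih, sum_Icc_succ_top (by omega) (fun d => (∑ j ∈ Icc 1 d, c j) * (F d - F (d + 1)))]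
    have h := sum_Icc_succ_top (a := 1) (b := n) (by omega) c
    rw [h]
    ring

lemma riemann {f : ℝ → ℂ} {L : ℝ} (hL : 0 ≤ L) (hf : ∀ x y : ℝ, 0 ≤ x → 0 ≤ y → ‖f x - f y‖ ≤ L * |x - y|)
    (hc : Continuous f) (h1 : f 1 = 0) (hi : ∫ x in (0 : ℝ)..1, f x = 0) {t : ℝ} (ht : 0 < t) {D : ℕ} (hD : D * t ≤ 1)
    (hD2 : 1 < (D + 1) * t) (ht1 : t ≤ 1) : ‖∑ d ∈ Icc 1 D, f (d * t)‖ ≤ 2 * L := by
  have e1 : ∑ d ∈ Icc 1 D, f (d * t) = ∑ d ∈ range D, f ((d + 1 : ℕ) * t) := by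
    rw [← Ico_add_one_right_eq_Icc, sum_Ico_eq_sum_range, Nat.add_sub_cancel]
    refine sum_congr rfl fun a _ => ?_
    rw [add_comm 1 a]
  have hint : ∀ a b : ℝ, IntervalIntegrable f volume a b := fun a b => hc.intervalIntegrable a b
  have e2 := intervalIntegral.sum_integral_adjacent_intervals (f := f) (μ := volume) (a := fun k : ℕ => (k : ℝ) * t)
    (n := D) (fun k _ => hint _ _)
  have e3 : (t : ℂ) * ∑ d ∈ Icc 1 D, f (d * t) = ∑ d ∈ range D, (∫ x in ((d : ℕ) : ℝ) * t..((d + 1 : ℕ) : ℝ) * t,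
      (f ((d + 1 : ℕ) * t) - f x)) + ∫ x in (0 : ℝ)..D * t, f x := by
    have : (0 : ℝ) = ((0 : ℕ) : ℝ) * t := by simp
    rw [e1, mul_sum, this, ← e2, ← sum_add_distrib]
    refine sum_congr rfl fun d _ => ?_
    rw [intervalIntegral.integral_sub (by simp) (hint _ _), intervalIntegral.integral_const]
    have : ((d + 1 : ℕ) : ℝ) * t - (d : ℝ) * t = t := by push_cast; ring
    rw [this, Complex.real_smul]
    ring
  have e4 : ∫ x in (0 : ℝ)..D * t, f x = - ∫ x in (D * t)..1, f x := by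
    have h2 := intervalIntegral.integral_add_adjacent_intervals (hint 0 (D * t)) (hint (D * t) 1)
    rw [hi] at h2
    exact eq_neg_of_add_eq_zero_left h2
  have b1 : ∀ d ∈ range D, ‖∫ x in ((d : ℕ) : ℝ) * t..((d + 1 : ℕ) : ℝ) * t, (f ((d + 1 : ℕ) * t) - f x)‖ ≤ L * t * t := by
    intro d _
    have hab : ((d : ℕ) : ℝ) * t ≤ ((d + 1 : ℕ) : ℝ) * t := by
      push_cast
      nlinarith
    have h2 := intervalIntegral.norm_integral_le_of_norm_le_const (a := ((d : ℕ) : ℝ) * t) (b := ((d + 1 : ℕ) : ℝ) * t)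
      (f := fun x => f ((d + 1 : ℕ) * t) - f x) (C := L * t) (fun x hx => by
        rw [Set.uIoc_of_le hab] at hx
        have hx0 : 0 ≤ x := le_trans (by positivity) hx.1.le
        refine (hf _ _ (by positivity) hx0).trans (mul_le_mul_of_nonneg_left ?_ hL)
        rw [abs_of_nonneg (by linarith [hx.2])]
        have := hx.1
        push_cast
        linarith)
    have h3 : |((d + 1 : ℕ) : ℝ) * t - (d : ℝ) * t| = t := by
      have : ((d + 1 : ℕ) : ℝ) * t - (d : ℝ) * t = t := by push_cast; ring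
      rw [this, abs_of_pos ht]
    rw [h3] at h2
    exact h2
  have b2 : ‖∫ x in (D * t)..1, f x‖ ≤ L * t := by
    have h2 := intervalIntegral.norm_integral_le_of_norm_le_const (a := D * t) (b := 1)
      (f := f) (C := L * t) (fun x hx => by
        rw [Set.uIoc_of_le hD] at hx
        have hx0 : 0 ≤ x := le_trans (by positivity) hx.1.le
        have h3 := hf x 1 hx0 zero_le_one
        rw [h1, sub_zero] at h3
        refine h3.trans (mul_le_mul_of_nonneg_left ?_ hL)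
        rw [abs_of_nonpos (by linarith [hx.2])]
        have := hx.1
        linarith)
    have h3 : |1 - (D : ℝ) * t| ≤ 1 := by
      rw [abs_of_nonneg (by linarith)]
      have : 0 ≤ (D : ℝ) * t := by positivity
      linarith
    calc _ ≤ L * t * |1 - (D : ℝ) * t| := h2
      _ ≤ L * t * 1 := mul_le_mul_of_nonneg_left h3 (by positivity)
      _ = L * t := mul_one _
  have b3 : ‖(t : ℂ) * ∑ d ∈ Icc 1 D, f (d * t)‖ ≤ 2 * L * t := by
    rw [e3, e4]
    refine (norm_add_le _ _).trans ?_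
    rw [norm_neg]
    have h2 := (norm_sum_le _ _).trans (sum_le_sum b1)
    rw [sum_const, card_range, nsmul_eq_mul] at h2
    have h3 : (D : ℝ) * (L * t * t) ≤ L * t := by
      calc (D : ℝ) * (L * t * t) = (D * t) * (L * t) := by ring
        _ ≤ 1 * (L * t) := mul_le_mul_of_nonneg_right hD (by positivity)
        _ = L * t := one_mul _
    linarith
  rw [norm_mul, Complex.norm_real, Real.norm_eq_abs, abs_of_pos ht] at b3
  have : t * ‖∑ d ∈ Icc 1 D, f (d * t)‖ ≤ t * (2 * L) := by linarith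
  exact le_of_mul_le_mul_left this ht

/-- **first moment of the smoothed sums** -/
theorem am (ε : ℝ) (hε : 0 < ε) : ∃ C : ℝ, 0 < C ∧ ∀ (f : ℝ → ℂ) (L : ℝ), 0 ≤ L →
    (∀ x y : ℝ, 0 ≤ x → 0 ≤ y → ‖f x - f y‖ ≤ L * |x - y|) → Continuous f → (∀ x, 1 ≤ x → f x = 0) →
    ∫ x in (0 : ℝ)..1, f x = 0 → ∀ t : ℝ, 0 < t → t ≤ 1 → ∀ D : ℕ, D * t ≤ 1 → 1 < (D + 1) * t → ∀ N : ℕ, 1 ≤ N →
    ∑ m ∈ Icc 1 N, ‖∑ d ∈ Icc 1 D, (cF m d : ℂ) * f (d * t)‖ ≤ C * L * (N : ℝ) ^ (1 + ε) * t ^ (-(1 / 2 + ε)) := by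
  obtain ⟨C, hC, h⟩ := sm ε hε
  refine ⟨3 * C, by positivity, fun f L hL hf hc h1 hi t ht ht1 D hD hD2 N hN => ?_⟩
  have hDpos : 1 ≤ D := by
    by_contra h0
    have : D = 0 := by omega
    subst this
    simp at hD2
    linarith
  have hD1 : (1 : ℝ) ≤ D := by exact_mod_cast hDpos
  have hD0 : (0 : ℝ) < D := by linarith
  have hN1 : (1 : ℝ) ≤ N := by exact_mod_cast hN
  have hN0 : (0 : ℝ) < N := by linarith
  set B : ℝ := C * ((N : ℝ) * D) ^ ε * (N * √D) with hB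
  have hB0 : 0 ≤ B := by positivity
  have hr := riemann hL hf hc (h1 1 le_rfl) hi ht hD hD2 ht1
  have key : ∀ m : ℕ, ‖∑ d ∈ Icc 1 D, (cF m d : ℂ) * f (d * t)‖ ≤ L * t * ∑ d ∈ Icc 1 D, |SS m d - KK m * d| +
      |KK m| * (2 * L) := by
    intro m
    have hz : f (((D + 1 : ℕ) : ℝ) * t) = 0 := h1 _ (by push_cast; linarith)
    have a1 := abel (fun d => (cF m d : ℂ)) (fun d => f (d * t)) D
    have a2 := abel (fun d => (1 : ℂ)) (fun d => f (d * t)) D
    rw [hz, mul_zero, zero_add] at a1 a2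
    simp only [one_mul, sum_const, Nat.card_Icc, Nat.add_sub_cancel, nsmul_eq_mul, mul_one] at a2
    have a3 : ∑ d ∈ Icc 1 D, (cF m d : ℂ) * f (d * t) = ∑ d ∈ Icc 1 D, ((SS m d - KK m * d : ℝ) : ℂ) *
        (f (d * t) - f (((d + 1 : ℕ) : ℝ) * t)) + (KK m : ℂ) * ∑ d ∈ Icc 1 D, f (d * t) := by
      rw [a1, a2, mul_sum, ← sum_add_distrib]
      refine sum_congr rfl fun d _ => ?_
      rw [SS_cF]
      push_cast
      ring
    rw [a3]
    refine (norm_add_le _ _).trans (add_le_add ?_ ?_)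
    · refine (norm_sum_le _ _).trans ?_
      rw [mul_sum]
      refine sum_le_sum fun d _ => ?_
      rw [norm_mul, Complex.norm_real, Real.norm_eq_abs]
      have h2 := hf (d * t) (((d + 1 : ℕ) : ℝ) * t) (by positivity) (by positivity)
      have h3 : |(d : ℝ) * t - ((d + 1 : ℕ) : ℝ) * t| = t := by
        have : (d : ℝ) * t - ((d + 1 : ℕ) : ℝ) * t = -t := by push_cast; ring
        rw [this, abs_neg, abs_of_pos ht]
      rw [h3] at h2
      calc |SS m d - KK m * d| * ‖f (d * t) - f (((d + 1 : ℕ) : ℝ) * t)‖ ≤ |SS m d - KK m * d| * (L * t) :=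
            mul_le_mul_of_nonneg_left h2 (abs_nonneg _)
        _ = L * t * |SS m d - KK m * d| := by ring
    · rw [norm_mul, Complex.norm_real, Real.norm_eq_abs]
      exact mul_le_mul_of_nonneg_left hr (abs_nonneg _)
  have s1 : ∀ d ∈ Icc 1 D, ∑ m ∈ Icc 1 N, |SS m d - KK m * d| ≤ B := fun d hd =>
    h N d D hN hDpos (mem_Icc.1 hd).2
  have s2 : ∑ m ∈ Icc 1 N, |KK m| ≤ B := by
    refine le_trans (le_of_eq ?_) (s1 1 (mem_Icc.2 ⟨le_rfl, hDpos⟩))
    refine sum_congr rfl fun m _ => ?_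
    have : SS m 1 = 0 := by
      unfold SS
      rw [Icc_self, sum_singleton, if_neg (fun h => absurd h.2 (by norm_num))]
    rw [this, Nat.cast_one, mul_one, zero_sub, abs_neg]
  have s3 : ∑ m ∈ Icc 1 N, ‖∑ d ∈ Icc 1 D, (cF m d : ℂ) * f (d * t)‖ ≤ 3 * L * B := by
    calc ∑ m ∈ Icc 1 N, ‖∑ d ∈ Icc 1 D, (cF m d : ℂ) * f (d * t)‖
        ≤ ∑ m ∈ Icc 1 N, (L * t * ∑ d ∈ Icc 1 D, |SS m d - KK m * d| + |KK m| * (2 * L)) := sum_le_sum fun m _ => key m
      _ = L * t * ∑ d ∈ Icc 1 D, ∑ m ∈ Icc 1 N, |SS m d - KK m * d| + (∑ m ∈ Icc 1 N, |KK m|) * (2 * L) := by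
          rw [sum_add_distrib, ← mul_sum, sum_comm, sum_mul]
      _ ≤ L * t * (D * B) + B * (2 * L) := by
          refine add_le_add (mul_le_mul_of_nonneg_left ?_ (by positivity)) (mul_le_mul_of_nonneg_right s2 (by positivity))
          refine (sum_le_sum s1).trans ?_
          rw [sum_const, Nat.card_Icc, Nat.add_sub_cancel, nsmul_eq_mul]
      _ = L * B * (D * t) + 2 * L * B := by ring
      _ ≤ L * B * 1 + 2 * L * B := by gcongr
      _ = 3 * L * B := by ring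
  refine s3.trans ?_
  have hDt : (D : ℝ) ≤ t⁻¹ := by
    rw [← one_div, le_div_iff₀ ht]; exact hD
  have h4 : ((N : ℝ) * D) ^ ε ≤ (N : ℝ) ^ ε * t ^ (-ε) := by
    rw [Real.mul_rpow hN0.le hD0.le, Real.rpow_neg ht.le, ← Real.inv_rpow ht.le]
    gcongr
  have h5 : √(D : ℝ) ≤ t ^ (-(1 / 2) : ℝ) := by
    rw [Real.sqrt_eq_rpow, Real.rpow_neg ht.le, ← Real.inv_rpow ht.le]
    gcongr
  calc 3 * L * B ≤ 3 * L * (C * ((N : ℝ) ^ ε * t ^ (-ε)) * (N * t ^ (-(1 / 2) : ℝ))) := by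
        rw [hB]
        gcongr
    _ = 3 * C * L * ((N : ℝ) ^ ε * N) * (t ^ (-ε) * t ^ (-(1 / 2) : ℝ)) := by ring
    _ = 3 * C * L * (N : ℝ) ^ (1 + ε) * t ^ (-(1 / 2 + ε)) := by
        rw [← Real.rpow_add ht, Real.rpow_add hN0, Real.rpow_one]
        congr 2
        · ring
        · ring

end Pool.Agent.L5helper84.BR
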