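import Pool.Agent.H38R2.CG.PV
import Pool.Agent.H379R2.W.JChar
import Pool.Agent.N879.QM.Gk

set_option autoImplicit false

/-!
Sums of real characters: the characters `d ↦ e(d) (d / n)`, `e` a real character modulo `8`, and the
inequality of Polya and Vinogradov for them.
-/

namespace Pool.Agent.L5helper84.BR

open Finset

/-- values of the four real characters modulo `8` -/
def ev (i : Fin 4) (x : ZMod 8) : ℤ :=
  (![![0, 1, 0, 1, 0, 1, 0, 1], ![0, 1, 0, -1, 0, 1, 0, -1], ![0, 1, 0, -1, 0, -1, 0, 1],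
    ![0, 1, 0, 1, 0, -1, 0, -1]] : Fin 4 → Fin 8 → ℤ) i x

lemma ev_one : ∀ i, ev i 1 = 1 := by decide

lemma ev_mul : ∀ i x y, ev i (x * y) = ev i x * ev i y := by decide

lemma ev_abs : ∀ i x, |ev i x| ≤ 1 := by decide

lemma ev_cop : ∀ i (x : ZMod 8), ev i x ≠ 0 → Nat.Coprime x.val 8 := by decide

/-- the character `d ↦ e_i(d) (d / n)` -/
def ff (i : Fin 4) (n d : ℕ) : ℤ := ev i (d : ZMod 8) * jacobiSym (d : ℤ) n

lemma ff_one (i : Fin 4) (n : ℕ) : ff i n 1 = 1 := by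
  unfold ff
  rw [Nat.cast_one, ev_one, Nat.cast_one, jacobiSym.one_left, one_mul]

lemma ff_mul (i : Fin 4) (n a b : ℕ) : ff i n (a * b) = ff i n a * ff i n b := by
  unfold ff
  rw [Nat.cast_mul, ev_mul, Nat.cast_mul, jacobiSym.mul_left]
  ring

lemma ff_abs (i : Fin 4) (n d : ℕ) : |ff i n d| ≤ 1 := by
  unfold ff
  rw [abs_mul]
  have h1 := ev_abs i (d : ZMod 8)
  have h2 : |jacobiSym (d : ℤ) n| ≤ 1 := by
    rcases jacobiSym.trichotomy (d : ℤ) n with h | h | h <;> rw [h] <;> norm_num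
  calc |ev i (d : ZMod 8)| * |jacobiSym (d : ℤ) n| ≤ 1 * 1 := mul_le_mul h1 h2 (abs_nonneg _) (by norm_num)
    _ = 1 := by norm_num

lemma ff_absR (i : Fin 4) (n d : ℕ) : |(ff i n d : ℝ)| ≤ 1 := by
  have := ff_abs i n d
  rw [← Int.cast_abs]
  exact_mod_cast this

lemma ff_sq_le (i : Fin 4) (n d : ℕ) : (ff i n d : ℝ) ^ 2 ≤ 1 := by
  rw [← sq_abs]
  have := ff_absR i n d
  have h0 := abs_nonneg (ff i n d : ℝ)
  nlinarith

lemma ff_mod (i : Fin 4) (n d : ℕ) : ff i n (d % (8 * n)) = ff i n d := by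
  unfold ff
  have h1 : ((d % (8 * n) : ℕ) : ZMod 8) = (d : ZMod 8) := by
    rw [ZMod.natCast_eq_natCast_iff]
    exact (Nat.mod_modEq d (8 * n)).of_dvd (Dvd.intro n rfl)
  have h2 : jacobiSym ((d % (8 * n) : ℕ) : ℤ) n = jacobiSym (d : ℤ) n := by
    rw [jacobiSym.mod_left, jacobiSym.mod_left (d : ℤ) n]
    congr 1
    have : (d % (8 * n)) % n = d % n := Nat.mod_mod_of_dvd d (Dvd.intro_left 8 rfl)
    exact_mod_cast this
  rw [h1, h2]

lemma ff_zero_of (i : Fin 4) {n d : ℕ} (hn : n ≠ 0) (h : ¬ Nat.Coprime d (8 * n)) : ff i n d = 0 := by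
  by_contra hne
  apply h
  unfold ff at hne
  obtain ⟨h1, h2⟩ := mul_ne_zero_iff.1 hne
  refine Nat.Coprime.mul_right ?_ ?_
  · have h3 := ev_cop i _ h1
    rw [ZMod.val_natCast] at h3
    rwa [Nat.Coprime, ← Nat.gcd_rec, Nat.gcd_comm] at h3
  · by_contra h3
    have : NeZero n := ⟨hn⟩
    apply h2
    rw [jacobiSym.eq_zero_iff_not_coprime]
    rwa [Int.gcd_natCast_natCast]

instance ne8 (n : ℕ) [NeZero n] : NeZero (8 * n) := ⟨by have := NeZero.ne n; omega⟩

/-- the same as a Dirichlet character modulo `8 n` -/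
noncomputable def chi (i : Fin 4) (n : ℕ) [NeZero n] : DirichletCharacter ℂ (8 * n) where
  toFun a := ((ff i n a.val : ℤ) : ℂ)
  map_one' := by
    have h : (1 : ZMod (8 * n)).val = 1 % (8 * n) := ZMod.val_one_eq_one_mod (8 * n)
    rw [h, ff_mod, ff_one]
    norm_num
  map_mul' a b := by
    rw [ZMod.val_mul, ff_mod, ff_mul]
    push_cast
    rfl
  map_nonunit' a ha := by
    have h1 : ff i n a.val = 0 := by
      apply ff_zero_of i (NeZero.ne n)
      intro h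
      apply ha
      have h3 := (ZMod.isUnit_iff_coprime a.val (8 * n)).mpr h
      rwa [ZMod.natCast_zmod_val] at h3
    rw [h1]
    norm_num

lemma chi_apply (i : Fin 4) (n : ℕ) [NeZero n] (d : ℕ) : chi i n (d : ZMod (8 * n)) = ((ff i n d : ℤ) : ℂ) := by
  have : chi i n (d : ZMod (8 * n)) = ((ff i n ((d : ZMod (8 * n)).val) : ℤ) : ℂ) := rfl
  rw [this, ZMod.val_natCast, ff_mod]

lemma exists_neg (i : Fin 4) {n : ℕ} (ho : Odd n) (hs : Squarefree n) (h : ¬ (i = 0 ∧ n = 1)) :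
    ∃ a : ℕ, ff i n a = -1 := by
  by_cases hn : n = 1
  · subst hn
    have hi : i ≠ 0 := fun h0 => h ⟨h0, rfl⟩
    have key : ∀ i : Fin 4, i ≠ 0 → ev i 3 = -1 ∨ ev i 5 = -1 := by decide
    rcases key i hi with h1 | h1
    · refine ⟨3, ?_⟩
      unfold ff
      rw [jacobiSym.one_right, mul_one]
      exact h1
    · refine ⟨5, ?_⟩
      unfold ff
      rw [jacobiSym.one_right, mul_one]
      exact h1
  · obtain ⟨a, ha⟩ := Pool.Agent.H379R2.W.exists_neg_one hs squarefree_one ho odd_one hn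
    rw [mul_one] at ha
    have hco : Nat.Coprime n 8 := by
      have : Nat.Coprime n (2 ^ 3) := Nat.Coprime.pow_right 3 (Nat.coprime_two_right.2 ho)
      exact this
    obtain ⟨b, hb1, hb2⟩ := Nat.chineseRemainder hco a 1
    refine ⟨b, ?_⟩
    have e1 : ((b : ℕ) : ZMod 8) = 1 := by
      have := (ZMod.natCast_eq_natCast_iff b 1 8).2 hb2
      simpa using this
    have e2 : jacobiSym (b : ℤ) n = jacobiSym (a : ℤ) n := by
      rw [jacobiSym.mod_left, jacobiSym.mod_left (a : ℤ) n]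
      congr 1
      exact_mod_cast hb1
    unfold ff
    rw [e1, ev_one, e2, ha, one_mul]

lemma chi_ne_one (i : Fin 4) {n : ℕ} [NeZero n] (ho : Odd n) (hs : Squarefree n) (h : ¬ (i = 0 ∧ n = 1)) :
    chi i n ≠ 1 := by
  obtain ⟨a, ha⟩ := exists_neg i ho hs h
  intro h1
  have h2 := chi_apply i n a
  rw [h1, ha] at h2
  by_cases hu : IsUnit (a : ZMod (8 * n))
  · rw [MulChar.one_apply hu] at h2
    norm_num at h2
  · rw [MulChar.map_nonunit _ hu] at h2
    norm_num at h2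

/-- partial sums -/
noncomputable def PP (i : Fin 4) (n y : ℕ) : ℝ := ∑ d ∈ Icc 1 y, (ff i n d : ℝ)

/-- Polya-Vinogradov -/
theorem pv : ∃ C : ℝ, 0 < C ∧ ∀ (i : Fin 4) (n y : ℕ), Odd n → Squarefree n → ¬ (i = 0 ∧ n = 1) →
    |PP i n y| ≤ C * √(8 * n) * Real.log (8 * n) := by
  obtain ⟨C, hC, h⟩ := Pool.Agent.H38R2.CG.T_PV
  refine ⟨C, hC, fun i n y ho hs hne => ?_⟩
  have hn0 : n ≠ 0 := hs.ne_zero
  have : NeZero n := ⟨hn0⟩
  have h1 := h (8 * n) (chi i n) (by omega) (chi_ne_one i ho hs hne) 0 y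
  have e : ∑ d ∈ Ioc 0 y, chi i n (d : ZMod (8 * n)) = ((PP i n y : ℝ) : ℂ) := by
    have e0 : Ioc 0 y = Icc 1 y := by ext; simp [Nat.succ_le_iff]
    unfold PP
    rw [e0]
    push_cast
    refine sum_congr rfl fun d _ => ?_
    rw [chi_apply]
  rw [e, Complex.norm_real, Real.norm_eq_abs] at h1
  push_cast at h1
  exact h1

end Pool.Agent.L5helper84.BR
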