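import Mathlib
import Pool.Agent.Helper112.Arith

set_option autoImplicit false

/-!
An operator on arithmetic functions: `(U a)(M) = ∑_n n^(-σ) a(M n)`.
-/

namespace Pool.Agent.L5helper84.BR

open Finset
open scoped ENNReal

/-- weights -/
noncomputable def pw (σ : ℝ) (n : ℕ) : ℝ≥0∞ := ENNReal.ofReal ((n : ℝ) ^ (-σ))

/-- the operator -/
noncomputable def UU (σ : ℝ) (a : ℕ → ℝ≥0∞) (M : ℕ) : ℝ≥0∞ := ∑' n : ℕ, pw σ n * a (M * n)

/-- the norm -/
noncomputable def NN (τ : ℝ) (a : ℕ → ℝ≥0∞) : ℝ≥0∞ := ∑' m : ℕ, pw τ m * a m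

lemma pw_zero {σ : ℝ} (h : 0 < σ) : pw σ 0 = 0 := by
  unfold pw
  rw [Nat.cast_zero, Real.zero_rpow (by linarith), ENNReal.ofReal_zero]

lemma pw_mul (σ : ℝ) (m n : ℕ) : pw σ (m * n) = pw σ m * pw σ n := by
  unfold pw
  rw [Nat.cast_mul, Real.mul_rpow (Nat.cast_nonneg m) (Nat.cast_nonneg n), ENNReal.ofReal_mul (by positivity)]

lemma pw_anti {σ τ : ℝ} (h : τ ≤ σ) {n : ℕ} (hn : 1 ≤ n) : pw σ n ≤ pw τ n := by
  unfold pw
  apply ENNReal.ofReal_le_ofReal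
  exact Real.rpow_le_rpow_of_exponent_le (by exact_mod_cast hn) (by linarith)

theorem NN_UU {σ τ δ : ℝ} (hτ : 0 < τ) (hσ : τ ≤ σ) (hδ : 0 < δ) : ∃ C : ℝ≥0∞, C ≠ ⊤ ∧ ∀ a : ℕ → ℝ≥0∞,
    NN τ (UU σ a) ≤ C * NN (τ - δ) a := by
  obtain ⟨C, hC, hdiv⟩ := Pool.Agent.Helper112.divisor_bound δ hδ
  refine ⟨ENNReal.ofReal C, ENNReal.ofReal_ne_top, fun a => ?_⟩
  have hσ0 : 0 < σ := by linarith
  have h1 : NN τ (UU σ a) ≤ ∑' m : ℕ, ∑' q : ℕ, if m ∈ q.divisors then pw τ q * a q else 0 := by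
    unfold NN UU
    refine ENNReal.tsum_le_tsum fun m => ?_
    rcases Nat.eq_zero_or_pos m with rfl | hm
    · rw [pw_zero hτ, zero_mul]
      exact zero_le
    rw [← ENNReal.tsum_mul_left]
    have hinj : Function.Injective (fun n : ℕ => m * n) := fun x y h => Nat.eq_of_mul_eq_mul_left hm h
    refine le_trans ?_ (ENNReal.tsum_comp_le_tsum_of_injective hinj (fun q => if m ∈ q.divisors then pw τ q * a q else 0))
    refine ENNReal.tsum_le_tsum fun n => ?_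
    rcases Nat.eq_zero_or_pos n with rfl | hn
    · rw [pw_zero hσ0, zero_mul, mul_zero]
      exact zero_le
    have hmem : m ∈ (m * n).divisors := Nat.mem_divisors.2 ⟨Dvd.intro n rfl, by positivity⟩
    simp only [if_pos hmem]
    rw [pw_mul, mul_assoc]
    exact mul_le_mul_right (mul_le_mul_left (pw_anti hσ hn) _) _
  have h2 : ∑' m : ℕ, ∑' q : ℕ, (if m ∈ q.divisors then pw τ q * a q else 0) =
      ∑' q : ℕ, ((q.divisors.card : ℕ) : ℝ≥0∞) * (pw τ q * a q) := by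
    rw [ENNReal.tsum_comm]
    congr 1
    funext q
    rw [tsum_eq_sum (s := q.divisors) (fun m hm => if_neg hm)]
    rw [sum_ite_mem, inter_self, sum_const, nsmul_eq_mul]
  rw [h2] at h1
  refine h1.trans ?_
  unfold NN
  rw [← ENNReal.tsum_mul_left]
  refine ENNReal.tsum_le_tsum fun q => ?_
  rcases Nat.eq_zero_or_pos q with rfl | hq
  · simp
  rw [← mul_assoc, ← mul_assoc]
  refine mul_le_mul_left ?_ _
  have hq0 : (0 : ℝ) < q := by exact_mod_cast hq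
  unfold pw
  rw [← ENNReal.ofReal_natCast, ← ENNReal.ofReal_mul (by positivity), ← ENNReal.ofReal_mul hC.le]
  apply ENNReal.ofReal_le_ofReal
  calc (q.divisors.card : ℝ) * (q : ℝ) ^ (-τ) ≤ (C * (q : ℝ) ^ δ) * (q : ℝ) ^ (-τ) :=
        mul_le_mul_of_nonneg_right (hdiv q hq) (by positivity)
    _ = C * (q : ℝ) ^ (-(τ - δ)) := by
        rw [mul_assoc, ← Real.rpow_add hq0]
        congr 2
        ring

theorem NN_iter {σ δ : ℝ} (hδ : 0 < δ) (k : ℕ) : (k : ℝ) * δ < σ → ∃ C : ℝ≥0∞, C ≠ ⊤ ∧ ∀ a : ℕ → ℝ≥0∞,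
    NN σ ((UU σ)^[k] a) ≤ C * NN (σ - k * δ) a := by
  induction k with
  | zero =>
    intro _
    refine ⟨1, ENNReal.one_ne_top, fun a => ?_⟩
    simp
  | succ n ih =>
    intro h
    push_cast at h
    obtain ⟨C, hC, h1⟩ := ih (by nlinarith)
    obtain ⟨C', hC', h2⟩ := NN_UU (σ := σ) (τ := σ - n * δ) (δ := δ) (by nlinarith)
      (by have : (0 : ℝ) ≤ n := Nat.cast_nonneg n; nlinarith) hδ
    refine ⟨C * C', ENNReal.mul_ne_top hC hC', fun a => ?_⟩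
    rw [Function.iterate_succ_apply]
    refine (h1 (UU σ a)).trans ?_
    rw [mul_assoc]
    refine mul_le_mul_right ?_ _
    refine (h2 a).trans (le_of_eq ?_)
    congr 2
    push_cast
    ring

lemma NN_single {τ : ℝ} (a : ℕ → ℝ≥0∞) {M : ℕ} (hM : 1 ≤ M) : a M ≤ ENNReal.ofReal ((M : ℝ) ^ τ) * NN τ a := by
  have hM0 : (0 : ℝ) < M := by exact_mod_cast hM
  have h1 : pw τ M * a M ≤ NN τ a := ENNReal.le_tsum M
  calc a M = ENNReal.ofReal ((M : ℝ) ^ τ) * (pw τ M * a M) := by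
        unfold pw
        rw [← mul_assoc, ← ENNReal.ofReal_mul (by positivity), ← Real.rpow_add hM0, add_neg_cancel, Real.rpow_zero,
          ENNReal.ofReal_one, one_mul]
    _ ≤ _ := mul_le_mul_right h1 _

theorem NN_dyadic {τ ε : ℝ} (hτ0 : 0 < τ) (hτ : 1 + ε < τ) : ∃ C : ℝ≥0∞, C ≠ ⊤ ∧ ∀ (a : ℕ → ℝ≥0∞) (A : ℝ≥0∞),
    (∀ N : ℕ, 1 ≤ N → ∑ m ∈ Icc 1 N, a m ≤ A * ENNReal.ofReal ((N : ℝ) ^ (1 + ε))) → NN τ a ≤ C * A := by
  set c : ℕ → ℝ := fun j => ((2 ^ j : ℕ) : ℝ) ^ (-τ) * ((2 ^ (j + 1) : ℕ) : ℝ) ^ (1 + ε) with hc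
  have hc0 : ∀ j, 0 ≤ c j := fun j => by positivity
  have hcs : Summable c := by
    have e : c = fun j => (2 : ℝ) ^ (1 + ε) * ((2 : ℝ) ^ (1 + ε - τ)) ^ j := by
      funext j
      rw [hc]
      simp only
      push_cast
      rw [← Real.rpow_natCast 2 j, ← Real.rpow_natCast 2 (j + 1), ← Real.rpow_natCast _ j, ← Real.rpow_mul (by norm_num),
        ← Real.rpow_mul (by norm_num), ← Real.rpow_mul (by norm_num), ← Real.rpow_add (by norm_num),
        ← Real.rpow_add (by norm_num)]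
      congr 1
      push_cast
      ring
    rw [e]
    refine Summable.mul_left _ (summable_geometric_of_lt_one (by positivity) ?_)
    exact Real.rpow_lt_one_of_one_lt_of_neg (by norm_num) (by linarith)
  refine ⟨∑' j, ENNReal.ofReal (c j), ?_, fun a A hA => ?_⟩
  · rw [← ENNReal.ofReal_tsum_of_nonneg hc0 hcs]
    exact ENNReal.ofReal_ne_top
  have h1 : NN τ a ≤ ∑' m : ℕ, ∑' j : ℕ, if m ∈ Icc 1 (2 ^ (j + 1)) then ENNReal.ofReal (((2 ^ j : ℕ) : ℝ) ^ (-τ)) * a m else 0 := by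
    unfold NN
    refine ENNReal.tsum_le_tsum fun m => ?_
    rcases Nat.eq_zero_or_pos m with rfl | hm
    · rw [pw_zero hτ0, zero_mul]
      exact zero_le
    refine le_trans ?_ (ENNReal.le_tsum (Nat.log 2 m))
    have g1 : 2 ^ Nat.log 2 m ≤ m := Nat.pow_log_le_self 2 (by omega)
    have g2 : m < 2 ^ (Nat.log 2 m + 1) := Nat.lt_pow_succ_log_self (by norm_num) m
    rw [if_pos (mem_Icc.2 ⟨hm, g2.le⟩)]
    refine mul_le_mul_left ?_ _
    unfold pw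
    apply ENNReal.ofReal_le_ofReal
    refine Real.rpow_le_rpow_of_nonpos (by positivity) (by exact_mod_cast g1) (by linarith)
  refine h1.trans ?_
  rw [ENNReal.tsum_comm, ← ENNReal.tsum_mul_right]
  refine ENNReal.tsum_le_tsum fun j => ?_
  rw [tsum_eq_sum (s := Icc 1 (2 ^ (j + 1))) (fun m hm => if_neg hm), sum_ite_mem, inter_self, ← mul_sum]
  have h2 := hA (2 ^ (j + 1)) (Nat.one_le_two_pow)
  calc ENNReal.ofReal (((2 ^ j : ℕ) : ℝ) ^ (-τ)) * ∑ m ∈ Icc 1 (2 ^ (j + 1)), a m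
      ≤ ENNReal.ofReal (((2 ^ j : ℕ) : ℝ) ^ (-τ)) * (A * ENNReal.ofReal (((2 ^ (j + 1) : ℕ) : ℝ) ^ (1 + ε))) :=
        mul_le_mul_right h2 _
    _ = ENNReal.ofReal (c j) * A := by
        rw [hc]
        simp only
        rw [ENNReal.ofReal_mul (by positivity)]
        ring

end Pool.Agent.L5helper84.BR
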