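import Pool.Agent.L5helper84.BR.WT
import Pool.Agent.L5helper84.BR.OP
import Pool.Agent.L5helper17.RF.Back

set_option autoImplicit false

/-!
The continuation to `Re w > 1/2` when all `Re s_j > 1`.
-/

namespace Pool.Agent.L5helper84.BR

open Finset
open scoped ENNReal
open Pool.Agent.Q48.MDS (kronTwo kron FundDisc kron_mul abs_kron_le kron_one_left Lchi norm_kron_le ContinuesTo)
open Pool.Agent.L5helper5.LE (Lx Lx_eq)
open Pool.Agent.L5helper17.RF (wt g1 pc sc ee cfn ee_eq_sum cfn_zero g1_eq_min natDegree_pc continuesTo_of_bound)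

lemma Lx_hasSum {d : ℕ} (hd : FundDisc d) (h1 : 1 < d) {s : ℂ} (hs : 1 < s.re) :
    HasSum (fun n : ℕ => (kron d n : ℂ) * (n : ℂ) ^ (-s)) (Lx d s) := by
  rw [Lx_eq hd h1 hs]
  unfold Lchi
  have h2 : LSeriesSummable (fun n => (kron d n : ℂ)) s :=
    LSeriesSummable_of_bounded_of_one_lt_re (m := 1) (fun n _ => norm_kron_le d n) hs
  have h3 : (fun n : ℕ => (kron d n : ℂ) * (n : ℂ) ^ (-s)) = LSeries.term (fun n => (kron d n : ℂ)) s := by
    funext n
    rw [LSeries.term_def]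
    rcases Nat.eq_zero_or_pos n with rfl | hn
    · rw [if_pos rfl, Nat.cast_zero, Complex.zero_cpow, mul_zero]
      intro h
      have := congrArg Complex.re h
      simp at this
      linarith
    · rw [if_neg (by omega), Complex.cpow_neg, div_eq_mul_inv]
  rw [h3]
  exact h2.hasSum

lemma enorm_cpow_le {s : ℂ} {σ : ℝ} (hσ : 0 < σ) (hs : σ ≤ s.re) (n : ℕ) : ‖(n : ℂ) ^ (-s)‖ₑ ≤ pw σ n := by
  rcases Nat.eq_zero_or_pos n with rfl | hn
  · rw [Nat.cast_zero, Complex.zero_cpow, enorm_zero]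
    · exact zero_le
    · intro h
      have := congrArg Complex.re h
      simp at this
      linarith
  · unfold pw
    rw [← ofReal_norm]
    apply ENNReal.ofReal_le_ofReal
    rw [Complex.norm_natCast_cpow_of_pos hn]
    refine Real.rpow_le_rpow_of_exponent_le (by exact_mod_cast hn) ?_
    rw [Complex.neg_re]
    linarith

/-- **expansion of the `L`-functions** -/
theorem expand {σ : ℝ} (hσ : 1 < σ) (D : Finset ℕ) (V : ℕ → ℂ) (hV : ∀ d ∈ D, V d ≠ 0 → FundDisc d ∧ 1 < d) :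
    ∀ (k : ℕ) (s : Fin k → ℂ), (∀ j, σ ≤ (s j).re) → ∀ M : ℕ, 1 ≤ M →
    ‖∑ d ∈ D, V d * (kron d M : ℂ) * ∏ j : Fin k, Lx d (s j)‖ₑ ≤
      (UU σ)^[k] (fun m => ‖∑ d ∈ D, V d * (kron d m : ℂ)‖ₑ) M := by
  intro k
  induction k with
  | zero =>
    intro s _ M _
    simp
  | succ k ih =>
    intro s hs M hM
    rw [Function.iterate_succ_apply']
    have hs0 : 1 < (s 0).re := lt_of_lt_of_le hσ (hs 0)
    have h1 : ∀ d ∈ D, HasSum (fun n : ℕ => V d * (kron d M : ℂ) * (((kron d n : ℂ) * (n : ℂ) ^ (-(s 0))) *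
        ∏ j : Fin k, Lx d (s j.succ))) (V d * (kron d M : ℂ) * ∏ j : Fin (k + 1), Lx d (s j)) := by
      intro d hd
      rw [Fin.prod_univ_succ]
      by_cases h0 : V d = 0
      · rw [h0]
        simp only [zero_mul]
        exact hasSum_zero
      · obtain ⟨h2, h3⟩ := hV d hd h0
        exact ((Lx_hasSum h2 h3 hs0).mul_right _).mul_left _
    have h2 := hasSum_sum h1
    have h3 : (fun n : ℕ => ∑ d ∈ D, V d * (kron d M : ℂ) * (((kron d n : ℂ) * (n : ℂ) ^ (-(s 0))) *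
        ∏ j : Fin k, Lx d (s j.succ))) = fun n : ℕ => (n : ℂ) ^ (-(s 0)) * ∑ d ∈ D, V d * (kron d (M * n) : ℂ) *
        ∏ j : Fin k, Lx d (s j.succ) := by
      funext n
      rcases Nat.eq_zero_or_pos n with rfl | hn
      · have : ((0 : ℕ) : ℂ) ^ (-(s 0)) = 0 := by
          rw [Nat.cast_zero, Complex.zero_cpow]
          intro h
          have := congrArg Complex.re h
          simp at this
          linarith
        rw [this]
        simp
      · rw [mul_sum]
        refine sum_congr rfl fun d _ => ?_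
        rw [kron_mul hM hn]
        push_cast
        ring
    rw [h3] at h2
    rw [← h2.tsum_eq]
    refine enorm_tsum_le_tsum_enorm.trans ?_
    unfold UU
    refine ENNReal.tsum_le_tsum fun n => ?_
    rw [enorm_mul]
    rcases Nat.eq_zero_or_pos n with rfl | hn
    · have h4 := enorm_cpow_le (s := s 0) (by linarith : 0 < σ) (hs 0) 0
      rw [pw_zero (by linarith)] at h4 ⊢
      rw [le_antisymm h4 zero_le, zero_mul, zero_mul]
    · exact mul_le_mul' (enorm_cpow_le (by linarith) (hs 0) n) (ih (fun j => s j.succ) (fun j => hs _) (M * n) (Nat.mul_pos hM hn))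

/-- **the bound for the weighted moments** -/
theorem ee_bound (k M m : ℕ) (hM : 1 ≤ M) (hm : 2 ^ k < m) {σ ε B : ℝ} (hσ : 1 < σ) (hε : 0 < ε) (hB : 0 ≤ B) :
    ∃ C : ℝ, 0 ≤ C ∧ ∀ s : Fin k → ℂ, (∀ j, σ ≤ (s j).re) → (∀ j, |(s j).re| ≤ B) → ∀ t : ℝ, 0 < t → t ≤ 1 →
      ‖ee k M m s t‖ ≤ C * t ^ (-(1 / 2 + ε)) * (1 + ‖fun j => (s j).im‖) ^ (2 ^ k) := by
  classical
  -- parameters
  set ε' : ℝ := min ε ((σ - 1) / 4) with hε'
  have hε'0 : 0 < ε' := lt_min hε (by linarith)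
  have hε'1 : ε' ≤ ε := min_le_left _ _
  have hε'2 : ε' ≤ (σ - 1) / 4 := min_le_right _ _
  set δ : ℝ := (σ - 1) / (4 * (k + 1)) with hδ
  have hδ0 : 0 < δ := by
    have : 0 < σ - 1 := by linarith
    positivity
  have hkδ : (k : ℝ) * δ ≤ (σ - 1) / 4 := by
    rw [hδ, ← mul_div_assoc, div_le_div_iff₀ (by positivity) (by norm_num)]
    have : (0 : ℝ) ≤ k := Nat.cast_nonneg k
    nlinarith
  obtain ⟨C1, hC1, h1⟩ := am ε' hε'0
  obtain ⟨C2, hC2, h2⟩ := NN_iter (σ := σ) hδ0 k (by linarith)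
  obtain ⟨C3, hC3, h3⟩ := NN_dyadic (τ := σ - k * δ) (ε := ε') (by linarith) (by linarith)
  obtain ⟨C4, hC4, h4⟩ := Lip_bound k m B hB
  set C5 : ℝ := (ENNReal.ofReal ((M : ℝ) ^ σ) * (C2 * C3)).toReal with hC5
  have hC5' : ENNReal.ofReal ((M : ℝ) ^ σ) * (C2 * C3) = ENNReal.ofReal C5 := by
    rw [hC5, ENNReal.ofReal_toReal]
    exact ENNReal.mul_ne_top ENNReal.ofReal_ne_top (ENNReal.mul_ne_top hC2 hC3)
  have hC50 : 0 ≤ C5 := ENNReal.toReal_nonneg
  refine ⟨C5 * (C1 * C4), by positivity, fun s hs hsB t ht ht1 => ?_⟩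
  -- the cut-off
  set D : ℕ := ⌊1 / t⌋₊ with hD
  have hDt : (D : ℝ) * t ≤ 1 := by
    have := Nat.floor_le (show 0 ≤ 1 / t by positivity)
    rw [← hD, le_div_iff₀ ht] at this
    exact this
  have hDt2 : 1 < ((D : ℝ) + 1) * t := by
    have := Nat.lt_floor_add_one (1 / t)
    rw [← hD, div_lt_iff₀ ht] at this
    exact this
  set Q := pc s with hQ
  have hdeg : Q.natDegree < m := by rw [hQ, natDegree_pc]; exact hm
  set V : ℕ → ℂ := fun d => if FundDisc d ∧ 1 < d then fw Q m (d * t) else 0 with hV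
  have e1 : ee k M m s t = ∑ d ∈ Icc 1 D, V d * (kron d M : ℂ) * ∏ j : Fin k, Lx d (s j) := by
    rw [ee_eq_sum k M m s (N := D + 1) (by push_cast; exact hDt2) ht]
    have e2 : ∑ d ∈ Finset.range (D + 1), cfn k M d s * g1 (pc s) m (d * t) =
        ∑ d ∈ Icc 1 D, cfn k M d s * g1 (pc s) m (d * t) := by
      symm
      refine sum_subset (fun d hd => ?_) (fun d hd hnd => ?_)
      · rw [mem_Icc] at hd
        rw [mem_range]
        omega
      · rw [mem_range] at hd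
        rw [mem_Icc] at hnd
        rw [cfn_zero k M s (show d ≤ 1 by omega), zero_mul]
    rw [e2]
    refine sum_congr rfl fun d hd => ?_
    have hd1 : 1 ≤ d := (mem_Icc.1 hd).1
    have hdt : (0 : ℝ) < d * t := mul_pos (by exact_mod_cast hd1) ht
    rw [g1_eq_min hdeg hdt, hV]
    unfold cfn fw
    simp only
    split_ifs
    · ring
    · simp
  have h5 := expand hσ (Icc 1 D) V (fun d _ hne => by
    by_contra h
    apply hne
    rw [hV]
    simp only
    rw [if_neg h]) k s hs M hM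
  rw [← e1] at h5
  set a : ℕ → ℝ≥0∞ := fun m => ‖∑ d ∈ Icc 1 D, V d * (kron d m : ℂ)‖ₑ with ha
  set T : ℝ := ‖fun j => (s j).im‖ with hT
  have hT0 : 0 ≤ T := norm_nonneg _
  set A : ℝ := C1 * Lip Q m * t ^ (-(1 / 2 + ε')) with hA
  have hA0 : 0 ≤ A := by
    have := Lip_nonneg Q m
    positivity
  have h6 : ∀ N : ℕ, 1 ≤ N → ∑ m ∈ Icc 1 N, a m ≤ ENNReal.ofReal A * ENNReal.ofReal ((N : ℝ) ^ (1 + ε')) := by
    intro N hN
    have h7 := h1 (fw Q m) (Lip Q m) (Lip_nonneg Q m) (fw_lip Q m) (fw_cont Q m) (fw_one hdeg)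
      (fw_int hdeg (by rw [hQ]; exact pc_one s)) t ht ht1 D hDt hDt2 N hN
    have e3 : ∀ n : ℕ, a n = ENNReal.ofReal ‖∑ d ∈ Icc 1 D, (cF n d : ℂ) * fw Q m (d * t)‖ := by
      intro n
      rw [ofReal_norm, ha]
      simp only
      congr 1
      refine sum_congr rfl fun d _ => ?_
      rw [hV]
      unfold cF
      simp only
      split_ifs
      · push_cast; ring
      · simp
    rw [sum_congr rfl fun n _ => e3 n, ← ENNReal.ofReal_sum_of_nonneg (fun _ _ => norm_nonneg _),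
      ← ENNReal.ofReal_mul hA0]
    apply ENNReal.ofReal_le_ofReal
    refine h7.trans (le_of_eq ?_)
    rw [hA]
    ring
  have h7 := h3 a (ENNReal.ofReal A) h6
  have h8 := NN_single (τ := σ) ((UU σ)^[k] a) hM
  have h9 : ‖ee k M m s t‖ₑ ≤ ENNReal.ofReal (C5 * A) := by
    calc ‖ee k M m s t‖ₑ ≤ (UU σ)^[k] a M := h5
      _ ≤ ENNReal.ofReal ((M : ℝ) ^ σ) * NN σ ((UU σ)^[k] a) := h8
      _ ≤ ENNReal.ofReal ((M : ℝ) ^ σ) * (C2 * (C3 * ENNReal.ofReal A)) := by
          gcongr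
          exact (h2 a).trans (mul_le_mul_right h7 _)
      _ = ENNReal.ofReal (C5 * A) := by
          rw [ENNReal.ofReal_mul hC50, ← hC5']
          ring
  rw [← ofReal_norm] at h9
  have h10 : ‖ee k M m s t‖ ≤ C5 * A := (ENNReal.ofReal_le_ofReal_iff (by positivity)).1 h9
  refine h10.trans ?_
  have h11 := h4 s hsB
  have h12 : t ^ (-(1 / 2 + ε')) ≤ t ^ (-(1 / 2 + ε)) := by
    apply Real.rpow_le_rpow_of_exponent_ge ht ht1
    linarith
  calc C5 * A ≤ C5 * (C1 * (C4 * (1 + T) ^ (2 ^ k)) * t ^ (-(1 / 2 + ε))) := by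
        rw [hA]
        have := Lip_nonneg Q m
        gcongr
    _ = C5 * (C1 * C4) * t ^ (-(1 / 2 + ε)) * (1 + T) ^ (2 ^ k) := by ring

/-- **continuation to `Re w > 1/2`** for `Re s_j > 1` -/
theorem base_region (k M : ℕ) (hM : 1 ≤ M) (p : Fin (k + 1) → ℝ) (hw : 1 / 2 < p 0) (hs : ∀ j : Fin k, 1 < p j.succ) :
    ContinuesTo k M p := by
  obtain ⟨η, hη, hηs⟩ : ∃ η : ℝ, 0 < η ∧ ∀ j : Fin k, 1 + 2 * η ≤ p j.succ := by
    rcases isEmpty_or_nonempty (Fin k) with he | hne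
    · exact ⟨1, one_pos, fun j => (he.false j).elim⟩
    · obtain ⟨j0, -, hj0⟩ := exists_min_image (univ : Finset (Fin k)) (fun j => p j.succ) univ_nonempty
      refine ⟨(p j0.succ - 1) / 2, by linarith [hs j0], fun j => ?_⟩
      have := hj0 j (mem_univ j)
      linarith
  set B : ℝ := ∑ j : Fin k, |p j.succ| + η with hB
  have hB0 : 0 ≤ B := by positivity
  obtain ⟨C, hC, h⟩ := ee_bound k M (2 ^ k + 1) hM (by omega) (σ := 1 + η) (ε := (p 0 - 1 / 2) / 2) (B := B)
    (by linarith) (by linarith) hB0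
  have h1 := continuesTo_of_bound (k := k) (M := M) (m := 2 ^ k + 1) (by omega) (β := p 0) (β' := 1 / 2 + (p 0 - 1 / 2) / 2)
    (η := η) (s0 := fun j => p j.succ) (fun j => by linarith [hs j]) hη (by linarith) (C := C) (N := 2 ^ k) hC
    (fun s hs' t ht ht1 => h s (fun j => by
      have := (abs_lt.1 (hs' j)).1
      linarith [hηs j]) (fun j => by
      have h2 := abs_lt.1 (hs' j)
      have h3 : |p j.succ| ≤ ∑ j : Fin k, |p j.succ| := single_le_sum (f := fun j : Fin k => |p j.succ|)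
        (fun _ _ => abs_nonneg _) (mem_univ j)
      have h4 := abs_le.1 (le_refl |p j.succ|)
      rw [hB, abs_le]
      constructor <;> linarith [h2.1, h2.2, h4.1, h4.2]) t ht ht1)
  have h2 : (Fin.cons (p 0) (fun j : Fin k => p j.succ) : Fin (k + 1) → ℝ) = p := by
    funext i
    refine Fin.cases ?_ (fun j => ?_) i <;> simp
  rw [h2] at h1
  exact h1

end Pool.Agent.L5helper84.BR

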