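import Pool.Agent.L5helper84.BR.Chr

set_option autoImplicit false

/-!
The mean square of the character sums `∑_{d ≤ y} e(d) (d / n)` over the odd squarefree `n ≤ R`: it is at most
`(R y)^ε R y`, for all `R` and `y` (Heath-Brown's large sieve for `y < R`, Polya-Vinogradov for `y ≥ R`).
-/

namespace Pool.Agent.L5helper84.BR

open Finset
open Pool.Agent.H306R2.RZ (js osf sqf LSB)

/-- Cauchy-Schwarz with weights -/
lemma cs {ι : Type} (s : Finset ι) (x w : ι → ℝ) (hw : ∀ b ∈ s, 0 < w b) :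
    (∑ b ∈ s, x b) ^ 2 ≤ (∑ b ∈ s, 1 / w b) * ∑ b ∈ s, w b * x b ^ 2 := by
  refine Finset.sum_sq_le_sum_mul_sum_of_sq_eq_mul s (fun b hb => ?_) (fun b hb => ?_) (fun b hb => ?_)
  · exact (one_div_pos.2 (hw b hb)).le
  · exact mul_nonneg (hw b hb).le (sq_nonneg _)
  · have := (hw b hb).ne'
    field_simp

lemma harm (n : ℕ) : ∑ b ∈ Icc 1 n, (1 : ℝ) / b ≤ 1 + Real.log n := by
  have h := harmonic_le_one_add_log n
  have h1 : ∑ b ∈ Icc 1 n, (1 : ℝ) / b = (harmonic n : ℝ) := by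
    rw [harmonic_eq_sum_Icc]
    push_cast
    exact sum_congr rfl fun b _ => one_div _
  rw [h1]
  exact h

/-- logarithms are small -/
lemma log_small (ε : ℝ) (hε : 0 < ε) : ∃ C : ℝ, 0 < C ∧ ∀ x : ℝ, 1 ≤ x → 1 + Real.log (8 * x) ≤ C * x ^ ε := by
  refine ⟨1 + Real.log 8 + 1 / ε, by have := Real.log_pos (show (1 : ℝ) < 8 by norm_num); positivity, fun x hx => ?_⟩
  have h0 : 0 < x := by linarith
  have h1 : Real.log (8 * x) = Real.log 8 + Real.log x := Real.log_mul (by norm_num) h0.ne'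
  have h2 : Real.log x ≤ x ^ ε / ε := Real.log_le_rpow_div h0.le hε
  have h3 : 1 ≤ x ^ ε := Real.one_le_rpow hx hε.le
  have h8 : 0 ≤ Real.log 8 := Real.log_nonneg (by norm_num)
  rw [h1]
  have h4 : (1 + Real.log 8) ≤ (1 + Real.log 8) * x ^ ε := le_mul_of_one_le_right (by linarith) h3
  calc 1 + (Real.log 8 + Real.log x) ≤ (1 + Real.log 8) * x ^ ε + x ^ ε / ε := by linarith
    _ = (1 + Real.log 8 + 1 / ε) * x ^ ε := by ring

lemma log_small' (ε : ℝ) (hε : 0 < ε) (A : ℕ) : ∃ C : ℝ, 0 < C ∧ ∀ x : ℝ, 1 ≤ x →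
    (1 + Real.log (8 * x)) ^ A ≤ C * x ^ ε := by
  obtain ⟨C, hC, h⟩ := log_small (ε / (A + 1)) (by positivity)
  refine ⟨C ^ A, by positivity, fun x hx => ?_⟩
  have h0 : 0 < x := by linarith
  have hl : 0 ≤ 1 + Real.log (8 * x) := by
    have := Real.log_nonneg (show (1 : ℝ) ≤ 8 * x by linarith)
    linarith
  calc (1 + Real.log (8 * x)) ^ A ≤ (C * x ^ (ε / (A + 1))) ^ A := pow_le_pow_left₀ hl (h x hx) A
    _ = C ^ A * x ^ (ε / (A + 1) * A) := by
        rw [mul_pow, ← Real.rpow_natCast (x ^ (ε / (A + 1))), ← Real.rpow_mul h0.le]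
    _ ≤ C ^ A * x ^ ε := by
        apply mul_le_mul_of_nonneg_left _ (by positivity)
        apply Real.rpow_le_rpow_of_exponent_le hx
        rw [div_mul_eq_mul_div, div_le_iff₀ (by positivity)]
        nlinarith

/-- the dual large sieve -/
theorem ls (ε : ℝ) (hε : 0 < ε) : ∃ C : ℝ, 0 < C ∧ ∀ (i : Fin 4) (M R : ℕ) (D : Finset ℕ), 1 ≤ M → 1 ≤ R →
    D ⊆ sqf M → ∑ n ∈ osf R, (∑ d ∈ D, (ff i n d : ℝ)) ^ 2 ≤ C * ((M : ℝ) * R) ^ ε * (M + R) * D.card := by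
  obtain ⟨C, hC, h⟩ := Pool.Agent.H423R2.RZL.HBLSn.HBLS ε hε
  refine ⟨C, hC, fun i M R D hM hR hD => ?_⟩
  have h1 := Pool.Agent.N879.QM.gk_dual2 (M := M) (N := R) (B := C * ((M : ℝ) * R) ^ ε * (M + R)) (by positivity)
    (h M R hM hR) D id (fun q hq => hD hq) (fun q _ q' _ h => h) (fun d => ((ev i (d : ZMod 8) : ℤ) : ℂ))
  have e1 : ∀ n : ℕ, ‖∑ q ∈ D, ((ev i (q : ZMod 8) : ℤ) : ℂ) * (js ((id q : ℕ) : ℤ) n : ℂ)‖ ^ 2 =
      (∑ d ∈ D, (ff i n d : ℝ)) ^ 2 := by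
    intro n
    have e2 : ∑ q ∈ D, ((ev i (q : ZMod 8) : ℤ) : ℂ) * (js ((id q : ℕ) : ℤ) n : ℂ) =
        (((∑ d ∈ D, (ff i n d : ℝ)) : ℝ) : ℂ) := by
      push_cast
      refine sum_congr rfl fun q _ => ?_
      unfold ff js
      push_cast
      rfl
    rw [e2, Complex.norm_real, Real.norm_eq_abs, sq_abs]
  simp only [e1] at h1
  refine h1.trans (mul_le_mul_of_nonneg_left ?_ (by positivity))
  calc ∑ q ∈ D, ‖((ev i (q : ZMod 8) : ℤ) : ℂ)‖ ^ 2 ≤ ∑ q ∈ D, (1 : ℝ) := by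
        refine sum_le_sum fun q _ => ?_
        have h2 : ‖((ev i (q : ZMod 8) : ℤ) : ℂ)‖ ≤ 1 := by
          rw [Complex.norm_intCast]
          have := ev_abs i (q : ZMod 8)
          rw [← Int.cast_abs]
          exact_mod_cast this
        calc ‖((ev i (q : ZMod 8) : ℤ) : ℂ)‖ ^ 2 ≤ 1 ^ 2 := pow_le_pow_left₀ (norm_nonneg _) h2 2
          _ = 1 := one_pow 2
    _ = D.card := by simp

/-- square parts -/
theorem decomp : ∃ DD : ℕ → ℕ → Finset ℕ, (∀ y b, 1 ≤ b → DD y b ⊆ sqf (y / b ^ 2)) ∧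
    ∀ i n y, PP i n y = ∑ b ∈ Icc 1 (Nat.sqrt y), (ff i n b : ℝ) ^ 2 * ∑ a ∈ DD y b, (ff i n a : ℝ) := by
  classical
  have key : ∀ d : ℕ, ∃ p : ℕ × ℕ, 1 ≤ d → 0 < p.1 ∧ 0 < p.2 ∧ p.2 ^ 2 * p.1 = d ∧ Squarefree p.1 := by
    intro d
    by_cases hd : 1 ≤ d
    · obtain ⟨a, b, h1, h2, h3, h4⟩ := Nat.sq_mul_squarefree_of_pos (n := d) hd
      exact ⟨(a, b), fun _ => ⟨h1, h2, h3, h4⟩⟩
    · exact ⟨(0, 0), fun h => absurd h hd⟩
  choose φ hφ using key
  refine ⟨fun y b => ((Icc 1 y).filter fun d => (φ d).2 = b).image fun d => (φ d).1, ?_, ?_⟩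
  · intro y b hb a ha
    rw [mem_image] at ha
    obtain ⟨d, hd, rfl⟩ := ha
    rw [mem_filter, mem_Icc] at hd
    obtain ⟨⟨h1, h2⟩, h3⟩ := hd
    obtain ⟨g1, g2, g3, g4⟩ := hφ d h1
    unfold sqf
    rw [mem_filter, mem_Icc]
    refine ⟨⟨g1, ?_⟩, g4⟩
    rw [Nat.le_div_iff_mul_le (by positivity), ← h3, mul_comm, g3]
    exact h2
  · intro i n y
    have hmap : ∀ d ∈ Icc 1 y, (φ d).2 ∈ Icc 1 (Nat.sqrt y) := by
      intro d hd
      rw [mem_Icc] at hd ⊢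
      obtain ⟨g1, g2, g3, g4⟩ := hφ d hd.1
      refine ⟨g2, ?_⟩
      rw [Nat.le_sqrt']
      calc (φ d).2 ^ 2 = (φ d).2 ^ 2 * 1 := by ring
        _ ≤ (φ d).2 ^ 2 * (φ d).1 := Nat.mul_le_mul_left _ g1
        _ = d := g3
        _ ≤ y := hd.2
    unfold PP
    rw [← sum_fiberwise_of_maps_to hmap]
    refine sum_congr rfl fun b hb => ?_
    rw [sum_image]
    · rw [mul_sum]
      refine sum_congr rfl fun d hd => ?_
      rw [mem_filter, mem_Icc] at hd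
      obtain ⟨g1, g2, g3, g4⟩ := hφ d hd.1.1
      conv_lhs => rw [← g3]
      rw [ff_mul, pow_two, ff_mul, hd.2]
      push_cast
      ring
    · intro d hd d' hd' h
      rw [mem_coe, mem_filter, mem_Icc] at hd hd'
      obtain ⟨g1, g2, g3, g4⟩ := hφ d hd.1.1
      obtain ⟨k1, k2, k3, k4⟩ := hφ d' hd'.1.1
      have h' : (φ d).1 = (φ d').1 := h
      rw [← g3, ← k3, hd.2, hd'.2, h']

lemma osf_card (R : ℕ) : (osf R).card ≤ R := by
  unfold osf
  refine (card_filter_le _ _).trans ?_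
  rw [Nat.card_Icc, Nat.add_sub_cancel]

lemma osf_mem {R n : ℕ} (h : n ∈ osf R) : 1 ≤ n ∧ n ≤ R ∧ Odd n ∧ Squarefree n := by
  unfold osf at h
  rw [mem_filter, mem_Icc] at h
  exact ⟨h.1.1, h.1.2, h.2.1, h.2.2⟩

/-- **the mean square of the full character sums** -/
theorem pms (ε : ℝ) (hε : 0 < ε) : ∃ C : ℝ, 0 < C ∧ ∀ (i : Fin 4) (R y : ℕ), 1 ≤ R → 1 ≤ y →
    ∑ n ∈ (osf R).filter (fun n => ¬ (i = 0 ∧ n = 1)), PP i n y ^ 2 ≤ C * ((R : ℝ) * y) ^ ε * (R * y) := by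
  obtain ⟨C0, hC0, hpv⟩ := pv
  obtain ⟨C1, hC1, hls⟩ := ls (ε / 2) (by positivity)
  obtain ⟨DD, hDD, hdec⟩ := decomp
  obtain ⟨C2, hC2, hlog⟩ := log_small' (ε / 2) (by positivity) 2
  refine ⟨8 * C0 ^ 2 * C2 + 2 * C1 * C2, by positivity, fun i R y hR hy => ?_⟩
  have hR1 : (1 : ℝ) ≤ R := by exact_mod_cast hR
  have hy1 : (1 : ℝ) ≤ y := by exact_mod_cast hy
  have hR0 : (0 : ℝ) < R := by linarith
  have hy0 : (0 : ℝ) < y := by linarith
  have hRy1 : (1 : ℝ) ≤ (R : ℝ) * y := by nlinarith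
  have hRy0 : (0 : ℝ) < (R : ℝ) * y := by linarith
  have hsplit : ((R : ℝ) * y) ^ ε = ((R : ℝ) * y) ^ (ε / 2) * ((R : ℝ) * y) ^ (ε / 2) := by
    rw [← Real.rpow_add hRy0]; congr 1; ring
  have hge1 : 1 ≤ ((R : ℝ) * y) ^ (ε / 2) := Real.one_le_rpow hRy1 (by positivity)
  rcases le_or_gt (R : ℝ) y with hcase | hcase
  · -- Polya-Vinogradov
    have h1 : ∀ n ∈ (osf R).filter (fun n => ¬ (i = 0 ∧ n = 1)), PP i n y ^ 2 ≤
        8 * C0 ^ 2 * R * (1 + Real.log (8 * R)) ^ 2 := by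
      intro n hn
      rw [mem_filter] at hn
      obtain ⟨g1, g2, g3, g4⟩ := osf_mem hn.1
      have h2 := hpv i n y g3 g4 hn.2
      have hn1 : (1 : ℝ) ≤ n := by exact_mod_cast g1
      have hnR : (n : ℝ) ≤ R := by exact_mod_cast g2
      have hl0 : 0 ≤ Real.log (8 * n) := Real.log_nonneg (by linarith)
      have hl1 : Real.log (8 * n) ≤ 1 + Real.log (8 * R) := by
        have := Real.log_le_log (show (0 : ℝ) < 8 * n by linarith) (show 8 * (n : ℝ) ≤ 8 * R by linarith)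
        linarith
      rw [← sq_abs]
      calc |PP i n y| ^ 2 ≤ (C0 * √(8 * n) * Real.log (8 * n)) ^ 2 := pow_le_pow_left₀ (abs_nonneg _) h2 2
        _ = C0 ^ 2 * (8 * n) * Real.log (8 * n) ^ 2 := by
            rw [mul_pow, mul_pow, Real.sq_sqrt (by positivity)]
        _ ≤ C0 ^ 2 * (8 * R) * (1 + Real.log (8 * R)) ^ 2 := by gcongr
        _ = _ := by ring
    have h3 : (((osf R).filter (fun n => ¬ (i = 0 ∧ n = 1))).card : ℝ) ≤ R := by
      exact_mod_cast (card_filter_le _ _).trans (osf_card R)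
    have h4 : (1 + Real.log (8 * R)) ^ 2 ≤ C2 * ((R : ℝ) * y) ^ (ε / 2) := by
      refine (hlog R hR1).trans (mul_le_mul_of_nonneg_left ?_ hC2.le)
      exact Real.rpow_le_rpow hR0.le (by nlinarith) (by positivity)
    calc ∑ n ∈ (osf R).filter (fun n => ¬ (i = 0 ∧ n = 1)), PP i n y ^ 2
        ≤ ∑ n ∈ (osf R).filter (fun n => ¬ (i = 0 ∧ n = 1)), 8 * C0 ^ 2 * R * (1 + Real.log (8 * R)) ^ 2 :=
          sum_le_sum h1
      _ = (((osf R).filter (fun n => ¬ (i = 0 ∧ n = 1))).card : ℝ) * (8 * C0 ^ 2 * R * (1 + Real.log (8 * R)) ^ 2) := by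
          rw [sum_const, nsmul_eq_mul]
      _ ≤ R * (8 * C0 ^ 2 * R * (C2 * ((R : ℝ) * y) ^ (ε / 2))) := by gcongr
      _ = 8 * C0 ^ 2 * C2 * ((R : ℝ) * y) ^ (ε / 2) * (R * R) := by ring
      _ ≤ 8 * C0 ^ 2 * C2 * ((R : ℝ) * y) ^ (ε / 2) * (R * y) := by gcongr
      _ ≤ 8 * C0 ^ 2 * C2 * ((R : ℝ) * y) ^ ε * (R * y) := by
          rw [hsplit]
          have : ((R : ℝ) * y) ^ (ε / 2) ≤ ((R : ℝ) * y) ^ (ε / 2) * ((R : ℝ) * y) ^ (ε / 2) :=
            le_mul_of_one_le_right (by positivity) hge1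
          gcongr
      _ ≤ _ := by
          have : 0 ≤ 2 * C1 * C2 * (((R : ℝ) * y) ^ ε * (R * y)) := by positivity
          nlinarith
  · -- the large sieve
    have h1 : ∀ n ∈ osf R, PP i n y ^ 2 ≤ (1 + Real.log y) *
        ∑ b ∈ Icc 1 (Nat.sqrt y), (b : ℝ) * (∑ a ∈ DD y b, (ff i n a : ℝ)) ^ 2 := by
      intro n _
      rw [hdec]
      refine (cs (Icc 1 (Nat.sqrt y)) _ (fun b => (b : ℝ)) (fun b hb => by
        have := (mem_Icc.1 hb).1
        exact_mod_cast this)).trans ?_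
      refine mul_le_mul ?_ (sum_le_sum fun b _ => ?_) (sum_nonneg fun b _ => by positivity) ?_
      · refine (harm _).trans ?_
        have h2 : (Nat.sqrt y : ℝ) ≤ y := by exact_mod_cast Nat.sqrt_le_self y
        have h3 : (1 : ℝ) ≤ Nat.sqrt y := by
          have : 1 ≤ Nat.sqrt y := Nat.le_sqrt'.2 (by omega)
          exact_mod_cast this
        have := Real.log_le_log (by linarith) h2
        linarith
      · apply mul_le_mul_of_nonneg_left _ (Nat.cast_nonneg b)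
        rw [mul_pow]
        have h2 : ((ff i n b : ℝ) ^ 2) ^ 2 ≤ 1 := by
          have h3 := ff_sq_le i n b
          have h4 := sq_nonneg (ff i n b : ℝ)
          nlinarith
        exact mul_le_of_le_one_left (sq_nonneg _) h2
      · have := Real.log_nonneg hy1
        linarith
    have h2 : ∀ b ∈ Icc 1 (Nat.sqrt y), (b : ℝ) * ∑ n ∈ osf R, (∑ a ∈ DD y b, (ff i n a : ℝ)) ^ 2 ≤
        2 * C1 * ((R : ℝ) * y) ^ (ε / 2) * (R * y) * (1 / b) := by
      intro b hb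
      rw [mem_Icc] at hb
      have hb1 : (1 : ℝ) ≤ b := by exact_mod_cast hb.1
      have hby : b ^ 2 ≤ y := Nat.le_sqrt'.1 hb.2
      have hM1 : 1 ≤ y / b ^ 2 := by
        rw [Nat.le_div_iff_mul_le (by have := hb.1; positivity)]
        omega
      have h3 := hls i (y / b ^ 2) R (DD y b) hM1 hR (hDD y b hb.1)
      have hcard : ((DD y b).card : ℝ) ≤ y / b ^ 2 := by
        have h4 := card_le_card (hDD y b hb.1)
        have h5 : (sqf (y / b ^ 2)).card ≤ y / b ^ 2 := by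
          unfold sqf
          refine (card_filter_le _ _).trans ?_
          rw [Nat.card_Icc, Nat.add_sub_cancel]
        have h6 : ((DD y b).card : ℝ) ≤ ((y / b ^ 2 : ℕ) : ℝ) := by exact_mod_cast h4.trans h5
        refine h6.trans ?_
        have := @Nat.cast_div_le ℝ _ _ _ y (b ^ 2)
        push_cast at this
        exact this
      have hM0 : (1 : ℝ) ≤ ((y / b ^ 2 : ℕ) : ℝ) := by exact_mod_cast hM1
      have hMy : ((y / b ^ 2 : ℕ) : ℝ) ≤ y := by exact_mod_cast Nat.div_le_self _ _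
      have h7 : (((y / b ^ 2 : ℕ) : ℝ) * R) ^ (ε / 2) ≤ ((R : ℝ) * y) ^ (ε / 2) := by
        apply Real.rpow_le_rpow (by positivity) _ (by positivity)
        rw [mul_comm]
        gcongr
      have h8 : ((y / b ^ 2 : ℕ) : ℝ) + R ≤ 2 * R := by linarith
      calc (b : ℝ) * ∑ n ∈ osf R, (∑ a ∈ DD y b, (ff i n a : ℝ)) ^ 2
          ≤ b * (C1 * (((y / b ^ 2 : ℕ) : ℝ) * R) ^ (ε / 2) * (((y / b ^ 2 : ℕ) : ℝ) + R) * (DD y b).card) := by
            gcongr
        _ ≤ b * (C1 * ((R : ℝ) * y) ^ (ε / 2) * (2 * R) * (y / b ^ 2)) := by gcongr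
        _ = _ := by
            field_simp
    have h3 : (1 + Real.log y) * (1 + Real.log y) ≤ C2 * ((R : ℝ) * y) ^ (ε / 2) := by
      have h4 : (1 + Real.log y) * (1 + Real.log y) ≤ (1 + Real.log (8 * y)) ^ 2 := by
        rw [pow_two]
        have h5 : Real.log y ≤ Real.log (8 * y) := Real.log_le_log hy0 (by linarith)
        have h6 := Real.log_nonneg hy1
        exact mul_le_mul (by linarith) (by linarith) (by linarith) (by linarith)
      refine h4.trans ((hlog y hy1).trans (mul_le_mul_of_nonneg_left ?_ hC2.le))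
      exact Real.rpow_le_rpow hy0.le (by nlinarith) (by positivity)
    have hly : 0 ≤ 1 + Real.log y := by
      have := Real.log_nonneg hy1
      linarith
    calc ∑ n ∈ (osf R).filter (fun n => ¬ (i = 0 ∧ n = 1)), PP i n y ^ 2
        ≤ ∑ n ∈ osf R, PP i n y ^ 2 := sum_le_sum_of_subset_of_nonneg (filter_subset _ _) fun _ _ _ => sq_nonneg _
      _ ≤ ∑ n ∈ osf R, (1 + Real.log y) *
            ∑ b ∈ Icc 1 (Nat.sqrt y), (b : ℝ) * (∑ a ∈ DD y b, (ff i n a : ℝ)) ^ 2 := sum_le_sum h1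
      _ = (1 + Real.log y) * ∑ b ∈ Icc 1 (Nat.sqrt y), (b : ℝ) *
            ∑ n ∈ osf R, (∑ a ∈ DD y b, (ff i n a : ℝ)) ^ 2 := by
          rw [← mul_sum, sum_comm]
          simp only [mul_sum]
      _ ≤ (1 + Real.log y) * ∑ b ∈ Icc 1 (Nat.sqrt y), 2 * C1 * ((R : ℝ) * y) ^ (ε / 2) * (R * y) * (1 / b) := by
          exact mul_le_mul_of_nonneg_left (sum_le_sum h2) hly
      _ = (1 + Real.log y) * (∑ b ∈ Icc 1 (Nat.sqrt y), (1 : ℝ) / b) * (2 * C1 * ((R : ℝ) * y) ^ (ε / 2) * (R * y)) := by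
          rw [← mul_sum]
          ring
      _ ≤ (1 + Real.log y) * (1 + Real.log y) * (2 * C1 * ((R : ℝ) * y) ^ (ε / 2) * (R * y)) := by
          have h5 : ∑ b ∈ Icc 1 (Nat.sqrt y), (1 : ℝ) / b ≤ 1 + Real.log y := by
            refine (harm _).trans ?_
            have h2 : (Nat.sqrt y : ℝ) ≤ y := by exact_mod_cast Nat.sqrt_le_self y
            have h3 : (1 : ℝ) ≤ Nat.sqrt y := by
              have : 1 ≤ Nat.sqrt y := Nat.le_sqrt'.2 (by omega)
              exact_mod_cast this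
            have := Real.log_le_log (by linarith) h2
            linarith
          gcongr
      _ ≤ (C2 * ((R : ℝ) * y) ^ (ε / 2)) * (2 * C1 * ((R : ℝ) * y) ^ (ε / 2) * (R * y)) := by gcongr
      _ = 2 * C1 * C2 * ((R : ℝ) * y) ^ ε * (R * y) := by rw [hsplit]; ring
      _ ≤ _ := by
          have : 0 ≤ 8 * C0 ^ 2 * C2 * (((R : ℝ) * y) ^ ε * (R * y)) := by positivity
          nlinarith

end Pool.Agent.L5helper84.BR
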