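import Pool.Agent.L5helper84.BR.QS
import Pool.Agent.Q48.MDS.Defs

set_option autoImplicit false

/-!
The principal case, and the first moment over all odd moduli with a fixed square part.
-/

namespace Pool.Agent.L5helper84.BR

open Finset Filter Topology
open Pool.Agent.H306R2.RZ (js osf sqf LSB)
open Pool.Agent.Y293.SF (mu abs_mu_le indic_eq mu_zero)
open Pool.Agent.Q48.MDS (kronTwo)

lemma ev_nat (i : Fin 4) (d : ℕ) : ev i (d : ZMod 8) = ev i ((d % 8 : ℕ) : ZMod 8) := by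
  rw [ZMod.natCast_mod]

lemma ev0 (d : ℕ) : ev 0 (d : ZMod 8) = if d % 2 = 1 then 1 else 0 := by
  rw [ev_nat]
  have h : d % 8 < 8 := Nat.mod_lt _ (by norm_num)
  have h2 : d % 2 = (d % 8) % 2 := by omega
  rw [h2]
  generalize d % 8 = r at *
  interval_cases r <;> decide

lemma ev01 (d : ℕ) : ev 0 (d : ZMod 8) + ev 1 (d : ZMod 8) = if d % 4 = 1 then 2 else 0 := by
  rw [ev_nat 0, ev_nat 1]
  have h : d % 8 < 8 := Nat.mod_lt _ (by norm_num)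
  have h2 : d % 4 = (d % 8) % 4 := by omega
  rw [h2]
  generalize d % 8 = r at *
  interval_cases r <;> decide

lemma ev01' (d : ℕ) : ev 0 (d : ZMod 8) - ev 1 (d : ZMod 8) = if d % 4 = 3 then 2 else 0 := by
  rw [ev_nat 0, ev_nat 1]
  have h : d % 8 < 8 := Nat.mod_lt _ (by norm_num)
  have h2 : d % 4 = (d % 8) % 4 := by omega
  rw [h2]
  generalize d % 8 = r at *
  interval_cases r <;> decide

lemma ev23 (d : ℕ) : ev 2 (d : ZMod 8) + ev 3 (d : ZMod 8) = if d % 4 = 1 then 2 * kronTwo d else 0 := by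
  rw [ev_nat 2, ev_nat 3]
  unfold kronTwo
  have h : d % 8 < 8 := Nat.mod_lt _ (by norm_num)
  have h2 : d % 4 = (d % 8) % 4 := by omega
  rw [h2]
  generalize d % 8 = r at *
  interval_cases r <;> decide

lemma PP01 (y : ℕ) : |PP 0 1 y - y / 2| ≤ 1 / 2 := by
  have h1 : ∀ y : ℕ, PP 0 1 y = (((y + 1) / 2 : ℕ) : ℝ) := by
    intro y
    induction y with
    | zero => rw [PP_zero]; simp
    | succ n ih =>
      have h2 : PP 0 1 (n + 1) = PP 0 1 n + (ff 0 1 (n + 1) : ℝ) := by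
        unfold PP
        rw [sum_Icc_succ_top (by omega)]
      rw [h2, ih]
      unfold ff
      rw [jacobiSym.one_right, mul_one, ev0]
      have h3 : (n + 1 + 1) / 2 = (n + 1) / 2 + if (n + 1) % 2 = 1 then 1 else 0 := by
        split_ifs with h <;> omega
      rw [h3]
      push_cast
      split_ifs <;> norm_num
  rw [h1, abs_le]
  have h2 : y ≤ 2 * ((y + 1) / 2) := by omega
  have h3 : 2 * ((y + 1) / 2) ≤ y + 1 := by omega
  have h4 : (y : ℝ) ≤ 2 * (((y + 1) / 2 : ℕ) : ℝ) := by exact_mod_cast h2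
  have h5 : 2 * (((y + 1) / 2 : ℕ) : ℝ) ≤ (y : ℝ) + 1 := by exact_mod_cast h3
  constructor <;> linarith

lemma floor_err (y g : ℕ) (hg : 1 ≤ g) : |((y / g : ℕ) : ℝ) - (y : ℝ) / g| ≤ 1 := by
  have hg0 : (0 : ℝ) < g := by exact_mod_cast hg
  have h1 : ((y / g : ℕ) : ℝ) ≤ (y : ℝ) / g := Nat.cast_div_le
  have h2 : (y : ℝ) / g < ((y / g : ℕ) : ℝ) + 1 := by
    rw [div_lt_iff₀ hg0]
    have h3 : y < (y / g + 1) * g := by
      have := Nat.lt_div_mul_add (a := y) hg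
      rw [add_mul, one_mul]
      exact this
    exact_mod_cast h3
  rw [abs_le]
  constructor <;> linarith

/-- the density of the odd numbers prime to `r` -/
noncomputable def cc (r : ℕ) : ℝ := ∑ g ∈ r.divisors, mu g * (ff 0 1 g : ℝ) * (1 / (2 * g))

lemma cc_abs (r : ℕ) : |cc r| ≤ r.divisors.card := by
  unfold cc
  refine (abs_sum_le_sum_abs _ _).trans ?_
  rw [← nsmul_one, ← sum_const]
  refine sum_le_sum fun g hg => ?_
  have hg1 : (1 : ℝ) ≤ g := by exact_mod_cast Nat.pos_of_mem_divisors hg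
  rw [abs_mul, abs_mul, abs_of_nonneg (show (0 : ℝ) ≤ 1 / (2 * g) by positivity)]
  have h1 : |mu g| * |(ff 0 1 g : ℝ)| ≤ 1 * 1 := mul_le_mul (abs_mu_le g) (ff_absR 0 1 g) (abs_nonneg _) (by norm_num)
  have h2 : (1 : ℝ) / (2 * g) ≤ 1 := by
    rw [div_le_one (by positivity)]
    linarith
  calc |mu g| * |(ff 0 1 g : ℝ)| * (1 / (2 * g)) ≤ 1 * 1 * 1 := mul_le_mul h1 h2 (by positivity) (by norm_num)
    _ = 1 := by norm_num

lemma PPr (r y : ℕ) (hr : r ≠ 0) : |PP 0 (1 * r ^ 2) y - cc r * y| ≤ r.divisors.card := by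
  rw [PP_cop 0 one_ne_zero hr]
  unfold cc
  rw [sum_mul, ← sum_sub_distrib]
  refine (abs_sum_le_sum_abs _ _).trans ?_
  have e1 : (r.divisors.card : ℝ) = ∑ _g ∈ r.divisors, (1 : ℝ) := by simp
  rw [e1]
  refine sum_le_sum fun g hg => ?_
  have hg1 : 1 ≤ g := Nat.pos_of_mem_divisors hg
  have e : mu g * (ff 0 1 g : ℝ) * PP 0 1 (y / g) - mu g * (ff 0 1 g : ℝ) * (1 / (2 * g)) * y =
      mu g * (ff 0 1 g : ℝ) * (PP 0 1 (y / g) - (y : ℝ) / g / 2) := by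
    ring
  rw [e, abs_mul, abs_mul]
  have h1 : |mu g| * |(ff 0 1 g : ℝ)| ≤ 1 * 1 := mul_le_mul (abs_mu_le g) (ff_absR 0 1 g) (abs_nonneg _) (by norm_num)
  have h2 : |PP 0 1 (y / g) - (y : ℝ) / g / 2| ≤ 1 := by
    have h3 := PP01 (y / g)
    have h4 := floor_err y g hg1
    rw [abs_le] at h3 h4 ⊢
    constructor <;> linarith [h3.1, h3.2, h4.1, h4.2]
  calc |mu g| * |(ff 0 1 g : ℝ)| * |PP 0 1 (y / g) - (y : ℝ) / g / 2| ≤ 1 * 1 * 1 :=
        mul_le_mul h1 h2 (abs_nonneg _) (by norm_num)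
    _ = 1 := by norm_num

/-- tails of `∑ w_a / a²` -/
lemma tail (w : ℕ → ℝ) (hw : ∀ a, |w a| ≤ 1) (A : ℕ) :
    |∑ a ∈ Icc 1 A, w a / (a : ℝ) ^ 2 - ∑' a : ℕ, w a / (a : ℝ) ^ 2| ≤ 2 / (A + 1) := by
  have hb : ∀ a : ℕ, |w a / (a : ℝ) ^ 2| ≤ ((a : ℝ) ^ 2)⁻¹ := by
    intro a
    rw [abs_div, abs_of_nonneg (sq_nonneg (a : ℝ)), div_eq_mul_inv]
    exact mul_le_of_le_one_left (by positivity) (hw a)
  have hs : Summable fun a : ℕ => w a / (a : ℝ) ^ 2 := by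
    refine Summable.of_norm_bounded (g := fun a : ℕ => ((a : ℝ) ^ 2)⁻¹) ?_ hb
    exact Real.summable_nat_pow_inv.2 (by norm_num)
  have ht := hs.hasSum.tendsto_sum_nat
  have h1 : ∑ a ∈ Icc 1 A, w a / (a : ℝ) ^ 2 = ∑ a ∈ range (A + 1), w a / (a : ℝ) ^ 2 := by
    rw [sum_range_succ', Nat.cast_zero]
    rw [show (w 0 / (0 : ℝ) ^ 2) = 0 by simp, add_zero]
    rw [← Ico_add_one_right_eq_Icc, sum_Ico_eq_sum_range, Nat.add_sub_cancel]
    refine sum_congr rfl fun a _ => ?_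
    rw [add_comm 1 a]
  rw [h1]
  have h2 : ∀ᶠ n in atTop, |∑ a ∈ range (A + 1), w a / (a : ℝ) ^ 2 - ∑ a ∈ range n, w a / (a : ℝ) ^ 2| ≤ 2 / (A + 1) := by
    filter_upwards [eventually_ge_atTop (A + 1)] with n hn
    rw [abs_sub_comm, ← sum_Ico_eq_sub _ hn]
    refine (abs_sum_le_sum_abs _ _).trans ?_
    have h3 := sum_Ioo_inv_sq_le (α := ℝ) A n
    have h4 : Ioo A n = Ico (A + 1) n := by
      ext a
      simp only [mem_Ioo, mem_Ico]
      omega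
    rw [h4] at h3
    exact (sum_le_sum fun a _ => hb a).trans h3
  exact le_of_tendsto ((tendsto_const_nhds.sub ht).abs) h2

/-- the constants -/
noncomputable def kq (r : ℕ) : ℝ := cc r * ∑' a : ℕ, (mu a * (ff 0 (1 * r ^ 2) a : ℝ) ^ 2) / (a : ℝ) ^ 2

lemma w_abs (r a : ℕ) : |mu a * (ff 0 (1 * r ^ 2) a : ℝ) ^ 2| ≤ 1 := by
  rw [abs_mul, abs_of_nonneg (sq_nonneg (ff 0 (1 * r ^ 2) a : ℝ))]
  calc |mu a| * (ff 0 (1 * r ^ 2) a : ℝ) ^ 2 ≤ 1 * 1 :=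
        mul_le_mul (abs_mu_le a) (ff_sq_le 0 _ a) (sq_nonneg _) (by norm_num)
    _ = 1 := one_mul 1

lemma QQr (r x : ℕ) (hr : r ≠ 0) : |QQ 0 (1 * r ^ 2) x - kq r * x| ≤ 4 * r.divisors.card * √x := by
  have hD0 : (0 : ℝ) ≤ (r.divisors.card : ℝ) := Nat.cast_nonneg _
  set A := Nat.sqrt x with hA
  have hA1 : (A : ℝ) ≤ √x := Real.nat_sqrt_le_real_sqrt
  have hA2 : √x < (A : ℝ) + 1 := Real.real_sqrt_lt_nat_sqrt_succ
  have e : QQ 0 (1 * r ^ 2) x - kq r * x = ∑ a ∈ Icc 1 A, (mu a * (ff 0 (1 * r ^ 2) a : ℝ) ^ 2) *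
      (PP 0 (1 * r ^ 2) (x / a ^ 2) - cc r * ((x : ℝ) / (a : ℝ) ^ 2)) +
      cc r * x * (∑ a ∈ Icc 1 A, (mu a * (ff 0 (1 * r ^ 2) a : ℝ) ^ 2) / (a : ℝ) ^ 2 -
        ∑' a : ℕ, (mu a * (ff 0 (1 * r ^ 2) a : ℝ) ^ 2) / (a : ℝ) ^ 2) := by
    rw [QQ_eq]
    unfold kq
    have e2 : ∑ a ∈ Icc 1 A, (mu a * (ff 0 (1 * r ^ 2) a : ℝ) ^ 2) *
        (PP 0 (1 * r ^ 2) (x / a ^ 2) - cc r * ((x : ℝ) / (a : ℝ) ^ 2)) =
        ∑ a ∈ Icc 1 A, mu a * (ff 0 (1 * r ^ 2) a : ℝ) ^ 2 * PP 0 (1 * r ^ 2) (x / a ^ 2) -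
        cc r * x * ∑ a ∈ Icc 1 A, (mu a * (ff 0 (1 * r ^ 2) a : ℝ) ^ 2) / (a : ℝ) ^ 2 := by
      rw [mul_sum, ← sum_sub_distrib]
      refine sum_congr rfl fun a _ => ?_
      ring
    rw [e2]
    ring
  rw [e]
  have h1 : |∑ a ∈ Icc 1 A, (mu a * (ff 0 (1 * r ^ 2) a : ℝ) ^ 2) *
      (PP 0 (1 * r ^ 2) (x / a ^ 2) - cc r * ((x : ℝ) / (a : ℝ) ^ 2))| ≤ 2 * r.divisors.card * √x := by
    refine (abs_sum_le_sum_abs _ _).trans ?_
    have h2 : ∀ a ∈ Icc 1 A, |(mu a * (ff 0 (1 * r ^ 2) a : ℝ) ^ 2) *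
        (PP 0 (1 * r ^ 2) (x / a ^ 2) - cc r * ((x : ℝ) / (a : ℝ) ^ 2))| ≤ 2 * r.divisors.card := by
      intro a ha
      rw [abs_mul]
      refine (mul_le_of_le_one_left (abs_nonneg _) (w_abs r a)).trans ?_
      have h3 := PPr r (x / a ^ 2) hr
      have h4 := floor_err x (a ^ 2) (Nat.one_le_pow _ _ (mem_Icc.1 ha).1)
      push_cast at h4
      have h5 : |cc r * (((x / a ^ 2 : ℕ) : ℝ) - (x : ℝ) / (a : ℝ) ^ 2)| ≤ r.divisors.card := by
        rw [abs_mul]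
        calc |cc r| * |((x / a ^ 2 : ℕ) : ℝ) - (x : ℝ) / (a : ℝ) ^ 2| ≤ r.divisors.card * 1 :=
              mul_le_mul (cc_abs r) h4 (abs_nonneg _) hD0
          _ = _ := mul_one _
      have e3 : PP 0 (1 * r ^ 2) (x / a ^ 2) - cc r * ((x : ℝ) / (a : ℝ) ^ 2) =
          (PP 0 (1 * r ^ 2) (x / a ^ 2) - cc r * ((x / a ^ 2 : ℕ) : ℝ)) +
          cc r * (((x / a ^ 2 : ℕ) : ℝ) - (x : ℝ) / (a : ℝ) ^ 2) := by ring
      rw [e3]
      refine (abs_add_le _ _).trans ?_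
      linarith
    refine (sum_le_sum h2).trans ?_
    rw [sum_const, Nat.card_Icc, Nat.add_sub_cancel, nsmul_eq_mul]
    nlinarith
  have h2 : |cc r * x * (∑ a ∈ Icc 1 A, (mu a * (ff 0 (1 * r ^ 2) a : ℝ) ^ 2) / (a : ℝ) ^ 2 -
        ∑' a : ℕ, (mu a * (ff 0 (1 * r ^ 2) a : ℝ) ^ 2) / (a : ℝ) ^ 2)| ≤ 2 * r.divisors.card * √x := by
    have h3 := tail (fun a => mu a * (ff 0 (1 * r ^ 2) a : ℝ) ^ 2) (w_abs r) A
    rw [abs_mul, abs_mul, abs_of_nonneg (Nat.cast_nonneg x : (0 : ℝ) ≤ x)]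
    have h4 : (x : ℝ) * (2 / (A + 1)) ≤ 2 * √x := by
      have h5 : (0 : ℝ) < (A : ℝ) + 1 := by positivity
      rw [← mul_div_assoc, div_le_iff₀ h5]
      have h6 : √(x : ℝ) * √x = x := Real.mul_self_sqrt (Nat.cast_nonneg x)
      have h7 := Real.sqrt_nonneg (x : ℝ)
      nlinarith
    calc |cc r| * x * |∑ a ∈ Icc 1 A, (mu a * (ff 0 (1 * r ^ 2) a : ℝ) ^ 2) / (a : ℝ) ^ 2 -
        ∑' a : ℕ, (mu a * (ff 0 (1 * r ^ 2) a : ℝ) ^ 2) / (a : ℝ) ^ 2| ≤ r.divisors.card * x * (2 / (A + 1)) := by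
          refine mul_le_mul ?_ h3 (abs_nonneg _) (by positivity)
          exact mul_le_mul_of_nonneg_right (cc_abs r) (Nat.cast_nonneg x)
      _ = r.divisors.card * (x * (2 / (A + 1))) := by ring
      _ ≤ r.divisors.card * (2 * √x) := mul_le_mul_of_nonneg_left h4 hD0
      _ = _ := by ring
  refine (abs_add_le _ _).trans ?_
  linarith

/-- the constant of the modulus `n` -/
noncomputable def kap (i : Fin 4) (n : ℕ) : ℝ := if i = 0 ∧ IsSquare n then kq (Nat.sqrt n) else 0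

lemma kap_sq (r : ℕ) : kap 0 (1 * r ^ 2) = kq r := by
  unfold kap
  rw [if_pos ⟨rfl, ⟨r, by ring⟩⟩, one_mul, Nat.sqrt_eq' r]

lemma kap_np {i : Fin 4} {R n r : ℕ} (h : n ∈ np i R) (hr : r ≠ 0) : kap i (n * r ^ 2) = 0 := by
  unfold kap
  rw [if_neg]
  rintro ⟨h1, s, hs⟩
  unfold np at h
  rw [mem_filter] at h
  obtain ⟨g1, g2, g3, g4⟩ := osf_mem h.1
  apply h.2
  refine ⟨h1, ?_⟩
  have h2 : r ^ 2 ∣ s ^ 2 := ⟨n, by rw [pow_two s, ← hs]; ring⟩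
  obtain ⟨t, ht⟩ := (Nat.pow_dvd_pow_iff (by norm_num)).1 h2
  subst ht
  have h3 : n = t * t := by
    have h4 : r ^ 2 * n = r ^ 2 * (t * t) := by
      rw [mul_comm, hs]; ring
    exact Nat.eq_of_mul_eq_mul_left (by positivity) h4
  have h5 := g4 t (by rw [h3])
  rw [Nat.isUnit_iff] at h5
  rw [h3, h5]

/-- the error terms -/
noncomputable def EE (i : Fin 4) (n x : ℕ) : ℝ := |QQ i n x - kap i n * x|

/-- **first moment over all the odd moduli with the square part `r²`** -/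
theorem qm (ε : ℝ) (hε : 0 < ε) : ∃ C : ℝ, 0 < C ∧ ∀ (i : Fin 4) (R r x X : ℕ), 1 ≤ R → r ≠ 0 → x ≤ X → 1 ≤ X →
    ∑ n ∈ osf R, EE i (n * r ^ 2) x ≤ C * ((R : ℝ) * X) ^ ε * (R * √X) * r.divisors.card := by
  obtain ⟨C, hC, h⟩ := fmq ε hε
  refine ⟨C + 4, by positivity, fun i R r x X hR hr hx hX => ?_⟩
  have hR1 : (1 : ℝ) ≤ R := by exact_mod_cast hR
  have hX1 : (1 : ℝ) ≤ X := by exact_mod_cast hX
  have hD0 : (0 : ℝ) ≤ (r.divisors.card : ℝ) := Nat.cast_nonneg _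
  have hRX1 : (1 : ℝ) ≤ (R : ℝ) * X := by nlinarith
  have h1 : ∑ n ∈ np i R, EE i (n * r ^ 2) x ≤ C * ((R : ℝ) * X) ^ ε * (R * √X) * r.divisors.card := by
    refine le_trans (le_of_eq ?_) (h i R r x X hR hr hx hX)
    refine sum_congr rfl fun n hn => ?_
    unfold EE
    rw [kap_np hn hr, zero_mul, sub_zero]
  have h2 : ∑ n ∈ (osf R).filter (fun n => i = 0 ∧ n = 1), EE i (n * r ^ 2) x ≤
      4 * ((R : ℝ) * X) ^ ε * (R * √X) * r.divisors.card := by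
    have h3 : ∀ n ∈ (osf R).filter (fun n => i = 0 ∧ n = 1), EE i (n * r ^ 2) x ≤ 4 * r.divisors.card * √x := by
      intro n hn
      rw [mem_filter] at hn
      obtain ⟨-, rfl, rfl⟩ := hn
      unfold EE
      rw [kap_sq]
      exact QQr r x hr
    have h4 : (osf R).filter (fun n => i = 0 ∧ n = 1) ⊆ {1} := by
      intro n hn
      rw [mem_filter] at hn
      rw [mem_singleton]
      exact hn.2.2
    have h5 : (((osf R).filter (fun n => i = 0 ∧ n = 1)).card : ℝ) ≤ 1 := by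
      have := card_le_card h4
      rw [card_singleton] at this
      exact_mod_cast this
    have h6 : √(x : ℝ) ≤ √X := Real.sqrt_le_sqrt (by exact_mod_cast hx)
    have h7 : 1 ≤ ((R : ℝ) * X) ^ ε := Real.one_le_rpow hRX1 hε.le
    calc ∑ n ∈ (osf R).filter (fun n => i = 0 ∧ n = 1), EE i (n * r ^ 2) x
        ≤ ∑ n ∈ (osf R).filter (fun n => i = 0 ∧ n = 1), 4 * r.divisors.card * √x := sum_le_sum h3
      _ = (((osf R).filter (fun n => i = 0 ∧ n = 1)).card : ℝ) * (4 * r.divisors.card * √x) := by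
          rw [sum_const, nsmul_eq_mul]
      _ ≤ 1 * (4 * r.divisors.card * √X) := by gcongr
      _ = 4 * 1 * (1 * √X) * r.divisors.card := by ring
      _ ≤ 4 * ((R : ℝ) * X) ^ ε * (R * √X) * r.divisors.card := by gcongr
  have h3 := sum_filter_add_sum_filter_not (osf R) (fun n => i = 0 ∧ n = 1) (fun n => EE i (n * r ^ 2) x)
  rw [← h3]
  have h4 : ∑ n ∈ (osf R).filter (fun n => ¬ (i = 0 ∧ n = 1)), EE i (n * r ^ 2) x = ∑ n ∈ np i R, EE i (n * r ^ 2) x := rfl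
  rw [h4]
  calc _ ≤ 4 * ((R : ℝ) * X) ^ ε * (R * √X) * r.divisors.card +
        C * ((R : ℝ) * X) ^ ε * (R * √X) * r.divisors.card := add_le_add h2 h1
    _ = _ := by ring

end Pool.Agent.L5helper84.BR
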