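import Pool.Agent.L5helper84.BR.PMS
import Pool.Agent.Y293.SF.SQF

set_option autoImplicit false

/-!
The character sums over squarefree numbers, for moduli with a square factor: first moments.
-/

namespace Pool.Agent.L5helper84.BR

open Finset
open Pool.Agent.H306R2.RZ (js osf sqf LSB)
open Pool.Agent.Y293.SF (mu abs_mu_le indic_eq)

/-- sums over multiples -/
lemma sum_mult (g y : ℕ) (hg : 1 ≤ g) (f : ℕ → ℝ) :
    ∑ d ∈ Icc 1 y, (if g ∣ d then f d else 0) = ∑ e ∈ Icc 1 (y / g), f (g * e) := by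
  rw [← sum_filter]
  symm
  refine sum_bij (fun e _ => g * e) ?_ ?_ ?_ ?_
  · intro e he
    rw [mem_Icc] at he
    rw [mem_filter, mem_Icc]
    refine ⟨⟨Nat.mul_pos hg he.1, ?_⟩, Dvd.intro _ rfl⟩
    calc g * e ≤ g * (y / g) := Nat.mul_le_mul_left _ he.2
      _ ≤ y := Nat.mul_div_le y g
  · intro a _ b _ h
    exact Nat.eq_of_mul_eq_mul_left hg h
  · intro d hd
    rw [mem_filter, mem_Icc] at hd
    obtain ⟨⟨h1, h2⟩, e, rfl⟩ := hd
    refine ⟨e, ?_, rfl⟩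
    rw [mem_Icc]
    refine ⟨Nat.pos_of_ne_zero fun h => ?_, ?_⟩
    · subst h; simp at h1
    · rw [Nat.le_div_iff_mul_le hg]; rwa [mul_comm]
  · intro e _; rfl

lemma PP_mult (i : Fin 4) (n g y : ℕ) (hg : 1 ≤ g) :
    ∑ d ∈ Icc 1 y, (if g ∣ d then (ff i n d : ℝ) else 0) = (ff i n g : ℝ) * PP i n (y / g) := by
  rw [sum_mult g y hg (fun d => (ff i n d : ℝ))]
  unfold PP
  rw [mul_sum]
  refine sum_congr rfl fun e _ => ?_
  rw [ff_mul]
  push_cast
  rfl

/-- sums over squarefree numbers -/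
noncomputable def QQ (i : Fin 4) (n x : ℕ) : ℝ := ∑ d ∈ Icc 1 x, if Squarefree d then (ff i n d : ℝ) else 0

lemma QQ_eq (i : Fin 4) (n x : ℕ) : QQ i n x =
    ∑ a ∈ Icc 1 (Nat.sqrt x), mu a * (ff i n a : ℝ) ^ 2 * PP i n (x / a ^ 2) := by
  unfold QQ
  have h1 : ∀ d ∈ Icc 1 x, (if Squarefree d then (ff i n d : ℝ) else 0) =
      ∑ a ∈ Icc 1 (Nat.sqrt x), mu a * (if a ^ 2 ∣ d then (ff i n d : ℝ) else 0) := by
    intro d hd
    rw [mem_Icc] at hd
    have h2 : (if Squarefree d then (ff i n d : ℝ) else 0) = (if Squarefree d then (1 : ℝ) else 0) * ff i n d := by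
      split_ifs <;> simp
    rw [h2, indic_eq d (by omega), sum_mul]
    have h3 : ∑ a ∈ Icc 1 d, (if a ^ 2 ∣ d then mu a else 0) * (ff i n d : ℝ) =
        ∑ a ∈ Icc 1 x, (if a ^ 2 ∣ d then mu a else 0) * (ff i n d : ℝ) := by
      refine sum_subset (Icc_subset_Icc_right hd.2) fun a ha hna => ?_
      rw [mem_Icc] at ha hna
      rw [if_neg, zero_mul]
      intro hdv
      have h4 := Nat.le_of_dvd (by omega) hdv
      have h5 : a ≤ a ^ 2 := by nlinarith
      omega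
    have h4 : ∑ a ∈ Icc 1 (Nat.sqrt x), mu a * (if a ^ 2 ∣ d then (ff i n d : ℝ) else 0) =
        ∑ a ∈ Icc 1 x, mu a * (if a ^ 2 ∣ d then (ff i n d : ℝ) else 0) := by
      refine sum_subset (Icc_subset_Icc_right (Nat.sqrt_le_self x)) fun a ha hna => ?_
      rw [mem_Icc] at ha hna
      rw [if_neg, mul_zero]
      intro hdv
      have h4 := Nat.le_of_dvd (by omega) hdv
      have h5 : a ≤ Nat.sqrt x := by
        rw [Nat.le_sqrt']
        omega
      omega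
    rw [h3, h4]
    refine sum_congr rfl fun a _ => ?_
    split_ifs <;> simp
  rw [sum_congr rfl h1, sum_comm]
  refine sum_congr rfl fun a ha => ?_
  rw [mem_Icc] at ha
  have h2 := PP_mult i n (a ^ 2) x (Nat.one_le_pow _ _ ha.1)
  rw [← mul_sum, h2, pow_two a, ff_mul]
  push_cast
  ring

/-- the sum of the Moebius function -/
lemma mu_sum (r d : ℕ) (hr : r ≠ 0) : ∑ g ∈ r.divisors, (if g ∣ d then mu g else 0) =
    if Nat.Coprime d r then 1 else 0 := by
  rw [← sum_filter]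
  have h1 : r.divisors.filter (fun g => g ∣ d) = (Nat.gcd d r).divisors := by
    ext g
    simp only [mem_filter, Nat.mem_divisors, Nat.dvd_gcd_iff]
    constructor
    · rintro ⟨⟨h1, h2⟩, h3⟩
      exact ⟨⟨h3, h1⟩, fun h => h2 (Nat.eq_zero_of_gcd_eq_zero_right h)⟩
    · rintro ⟨⟨h1, h2⟩, h3⟩
      exact ⟨⟨h2, hr⟩, h1⟩
  rw [h1]
  have h2 : (∑ d ∈ (Nat.gcd d r).divisors, (ArithmeticFunction.moebius d : ℤ)) = if Nat.gcd d r = 1 then 1 else 0 := by
    have := congrArg (fun f => f (Nat.gcd d r)) ArithmeticFunction.moebius_mul_coe_zeta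
    simp only [ArithmeticFunction.coe_mul_zeta_apply, ArithmeticFunction.one_apply] at this
    exact this
  have h3 := congrArg (fun z : ℤ => (z : ℝ)) h2
  push_cast at h3
  unfold mu
  exact h3

lemma ff_sq (i : Fin 4) {n r : ℕ} (hn : n ≠ 0) (hr : r ≠ 0) (d : ℕ) :
    (ff i (n * r ^ 2) d : ℝ) = if Nat.Coprime d r then (ff i n d : ℝ) else 0 := by
  unfold ff
  rw [jacobiSym.mul_right' _ hn (pow_ne_zero 2 hr), jacobiSym.pow_right]
  split_ifs with h
  · rw [jacobiSym.sq_one (by rwa [Int.gcd_natCast_natCast])]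
    push_cast
    ring
  · have : NeZero r := ⟨hr⟩
    have h1 : jacobiSym (d : ℤ) r = 0 := by
      rw [jacobiSym.eq_zero_iff_not_coprime]
      rwa [Int.gcd_natCast_natCast]
    rw [h1]
    norm_num

lemma PP_cop (i : Fin 4) {n r : ℕ} (hn : n ≠ 0) (hr : r ≠ 0) (y : ℕ) : PP i (n * r ^ 2) y =
    ∑ g ∈ r.divisors, mu g * (ff i n g : ℝ) * PP i n (y / g) := by
  have h1 : ∀ d ∈ Icc 1 y, (ff i (n * r ^ 2) d : ℝ) =
      ∑ g ∈ r.divisors, mu g * (if g ∣ d then (ff i n d : ℝ) else 0) := by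
    intro d _
    rw [ff_sq i hn hr]
    have h2 : (if Nat.Coprime d r then (ff i n d : ℝ) else 0) = (if Nat.Coprime d r then (1 : ℝ) else 0) * ff i n d := by
      split_ifs <;> simp
    rw [h2, ← mu_sum r d hr, sum_mul]
    refine sum_congr rfl fun g _ => ?_
    split_ifs <;> simp
  unfold PP
  rw [sum_congr rfl h1, sum_comm]
  refine sum_congr rfl fun g hg => ?_
  have hg1 : 1 ≤ g := Nat.pos_of_mem_divisors hg
  have h2 := PP_mult i n g y hg1
  rw [← mul_sum, h2]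
  unfold PP
  ring

lemma PP_zero (i : Fin 4) (n : ℕ) : PP i n 0 = 0 := by
  unfold PP
  simp

lemma QQ_zero (i : Fin 4) (n : ℕ) : QQ i n 0 = 0 := by
  unfold QQ
  simp

/-- the nonprincipal moduli -/
def np (i : Fin 4) (R : ℕ) : Finset ℕ := (osf R).filter (fun n => ¬ (i = 0 ∧ n = 1))

/-- the first moment -/
theorem fm (ε : ℝ) (hε : 0 < ε) : ∃ C : ℝ, 0 < C ∧ ∀ (i : Fin 4) (R y X : ℕ), 1 ≤ R → y ≤ X →
    ∑ n ∈ np i R, |PP i n y| ≤ C * ((R : ℝ) * X) ^ ε * (R * √y) := by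
  obtain ⟨C, hC, h⟩ := pms (2 * ε) (by positivity)
  refine ⟨√C, Real.sqrt_pos.2 hC, fun i R y X hR hX => ?_⟩
  rcases Nat.eq_zero_or_pos y with rfl | hy
  · rw [sum_eq_zero fun n _ => by rw [PP_zero, abs_zero]]
    simp
  have h1 := h i R y hR hy
  have hR1 : (1 : ℝ) ≤ R := by exact_mod_cast hR
  have hy1 : (1 : ℝ) ≤ y := by exact_mod_cast hy
  have hyX : (y : ℝ) ≤ X := by exact_mod_cast hX
  have hX0 : (0 : ℝ) < X := by linarith
  have hR0 : (0 : ℝ) < R := by linarith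
  have h2 : (∑ n ∈ np i R, |PP i n y|) ^ 2 ≤ R * (C * ((R : ℝ) * y) ^ (2 * ε) * (R * y)) := by
    calc (∑ n ∈ np i R, |PP i n y|) ^ 2 ≤ ((np i R).card : ℝ) * ∑ n ∈ np i R, |PP i n y| ^ 2 :=
          sq_sum_le_card_mul_sum_sq
      _ ≤ R * (C * ((R : ℝ) * y) ^ (2 * ε) * (R * y)) := by
          refine mul_le_mul ?_ ?_ (sum_nonneg fun _ _ => by positivity) (by positivity)
          · exact_mod_cast (card_filter_le _ _).trans (osf_card R)
          · simp only [sq_abs]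
            exact h1
  have h3 : R * (C * ((R : ℝ) * y) ^ (2 * ε) * (R * y)) ≤ (√C * ((R : ℝ) * X) ^ ε * (R * √y)) ^ 2 := by
    have h4 : ((R : ℝ) * X) ^ ε * ((R : ℝ) * X) ^ ε = ((R : ℝ) * X) ^ (2 * ε) := by
      rw [← Real.rpow_add (by positivity)]; congr 1; ring
    have h5 : ((R : ℝ) * y) ^ (2 * ε) ≤ ((R : ℝ) * X) ^ (2 * ε) :=
      Real.rpow_le_rpow (by positivity) (by gcongr) (by positivity)
    calc R * (C * ((R : ℝ) * y) ^ (2 * ε) * (R * y)) ≤ R * (C * ((R : ℝ) * X) ^ (2 * ε) * (R * y)) := by gcongr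
      _ = C * (((R : ℝ) * X) ^ ε * ((R : ℝ) * X) ^ ε) * R ^ 2 * y := by rw [h4]; ring
      _ = √C ^ 2 * (((R : ℝ) * X) ^ ε * ((R : ℝ) * X) ^ ε) * R ^ 2 * √y ^ 2 := by
          rw [Real.sq_sqrt hC.le, Real.sq_sqrt (by positivity)]
      _ = _ := by ring
  exact le_of_sq_le_sq (h2.trans h3) (by positivity)

lemma QQ_abs_le (i : Fin 4) {n r : ℕ} (hn : n ≠ 0) (hr : r ≠ 0) (x : ℕ) : |QQ i (n * r ^ 2) x| ≤
    ∑ a ∈ Icc 1 (Nat.sqrt x), ∑ g ∈ r.divisors, |PP i n (x / a ^ 2 / g)| := by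
  rw [QQ_eq]
  refine (abs_sum_le_sum_abs _ _).trans (sum_le_sum fun a _ => ?_)
  rw [PP_cop i hn hr, abs_mul]
  have h1 : |mu a * (ff i (n * r ^ 2) a : ℝ) ^ 2| ≤ 1 := by
    rw [abs_mul, abs_of_nonneg (sq_nonneg (ff i (n * r ^ 2) a : ℝ))]
    have := abs_mu_le a
    have h2 := ff_sq_le i (n * r ^ 2) a
    calc |mu a| * (ff i (n * r ^ 2) a : ℝ) ^ 2 ≤ 1 * 1 := mul_le_mul this h2 (sq_nonneg _) (by norm_num)
      _ = 1 := one_mul 1
  refine (mul_le_of_le_one_left (abs_nonneg _) h1).trans ?_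
  refine (abs_sum_le_sum_abs _ _).trans (sum_le_sum fun g _ => ?_)
  rw [abs_mul]
  have h1 : |mu g * (ff i n g : ℝ)| ≤ 1 := by
    rw [abs_mul]
    calc |mu g| * |(ff i n g : ℝ)| ≤ 1 * 1 := mul_le_mul (abs_mu_le g) (ff_absR i n g) (abs_nonneg _) (by norm_num)
      _ = 1 := one_mul 1
  exact mul_le_of_le_one_left (abs_nonneg _) h1

/-- **first moment over the nonprincipal moduli** -/
theorem fmq (ε : ℝ) (hε : 0 < ε) : ∃ C : ℝ, 0 < C ∧ ∀ (i : Fin 4) (R r x X : ℕ), 1 ≤ R → r ≠ 0 → x ≤ X → 1 ≤ X →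
    ∑ n ∈ np i R, |QQ i (n * r ^ 2) x| ≤ C * ((R : ℝ) * X) ^ ε * (R * √X) * r.divisors.card := by
  obtain ⟨C, hC, h⟩ := fm (ε / 2) (by positivity)
  obtain ⟨C2, hC2, hlog⟩ := log_small' (ε / 2) (by positivity) 1
  refine ⟨C * C2, by positivity, fun i R r x X hR hr hx hX => ?_⟩
  have hR1 : (1 : ℝ) ≤ R := by exact_mod_cast hR
  have hX1 : (1 : ℝ) ≤ X := by exact_mod_cast hX
  have hR0 : (0 : ℝ) < R := by linarith
  have hX0 : (0 : ℝ) < X := by linarith
  have hRX1 : (1 : ℝ) ≤ (R : ℝ) * X := by nlinarith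
  calc ∑ n ∈ np i R, |QQ i (n * r ^ 2) x|
      ≤ ∑ n ∈ np i R, ∑ a ∈ Icc 1 (Nat.sqrt x), ∑ g ∈ r.divisors, |PP i n (x / a ^ 2 / g)| := by
        refine sum_le_sum fun n hn => QQ_abs_le i ?_ hr x
        have := (osf_mem (mem_filter.1 hn).1).1
        omega
    _ = ∑ a ∈ Icc 1 (Nat.sqrt x), ∑ g ∈ r.divisors, ∑ n ∈ np i R, |PP i n (x / a ^ 2 / g)| := by
        rw [sum_comm]
        refine sum_congr rfl fun a _ => ?_
        rw [sum_comm]
    _ ≤ ∑ a ∈ Icc 1 (Nat.sqrt x), ∑ g ∈ r.divisors, C * ((R : ℝ) * X) ^ (ε / 2) * (R * √X) * (1 / a) := by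
        refine sum_le_sum fun a ha => sum_le_sum fun g hg => ?_
        rw [mem_Icc] at ha
        have ha1 : (1 : ℝ) ≤ a := by exact_mod_cast ha.1
        have ha0 : (0 : ℝ) < a := by linarith
        have h1 := h i R (x / a ^ 2 / g) X hR (((Nat.div_le_self _ _).trans (Nat.div_le_self _ _)).trans hx)
        refine h1.trans ?_
        have h2 : √((x / a ^ 2 / g : ℕ) : ℝ) ≤ √X * (1 / a) := by
          have h3 : ((x / a ^ 2 / g : ℕ) : ℝ) ≤ X / (a : ℝ) ^ 2 := by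
            have h4 : ((x / a ^ 2 / g : ℕ) : ℝ) ≤ ((x / a ^ 2 : ℕ) : ℝ) := by exact_mod_cast Nat.div_le_self _ _
            have h5 : ((x / a ^ 2 : ℕ) : ℝ) ≤ (x : ℝ) / ((a ^ 2 : ℕ) : ℝ) := Nat.cast_div_le
            have h6 : (x : ℝ) / ((a ^ 2 : ℕ) : ℝ) ≤ X / (a : ℝ) ^ 2 := by
              push_cast
              have : (x : ℝ) ≤ X := by exact_mod_cast hx
              gcongr
            exact h4.trans (h5.trans h6)
          calc √((x / a ^ 2 / g : ℕ) : ℝ) ≤ √(X / (a : ℝ) ^ 2) := Real.sqrt_le_sqrt h3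
            _ = √X / a := by rw [Real.sqrt_div hX0.le, Real.sqrt_sq ha0.le]
            _ = √X * (1 / a) := by ring
        calc C * ((R : ℝ) * X) ^ (ε / 2) * (R * √((x / a ^ 2 / g : ℕ) : ℝ))
            ≤ C * ((R : ℝ) * X) ^ (ε / 2) * (R * (√X * (1 / a))) := by gcongr
          _ = _ := by ring
    _ = C * ((R : ℝ) * X) ^ (ε / 2) * (R * √X) * r.divisors.card * ∑ a ∈ Icc 1 (Nat.sqrt x), (1 : ℝ) / a := by
        simp only [sum_const, nsmul_eq_mul]
        rw [mul_sum]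
        refine sum_congr rfl fun a _ => ?_
        ring
    _ ≤ C * ((R : ℝ) * X) ^ (ε / 2) * (R * √X) * r.divisors.card * (C2 * ((R : ℝ) * X) ^ (ε / 2)) := by
        refine mul_le_mul_of_nonneg_left ?_ (by positivity)
        refine (harm _).trans ?_
        have h1 := hlog X hX1
        rw [pow_one] at h1
        have h2 : (C2 * (X : ℝ) ^ (ε / 2)) ≤ C2 * ((R : ℝ) * X) ^ (ε / 2) := by
          refine mul_le_mul_of_nonneg_left ?_ hC2.le
          exact Real.rpow_le_rpow hX0.le (by nlinarith) (by positivity)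
        refine le_trans ?_ (h1.trans h2)
        have h3 : Real.log (Nat.sqrt x : ℝ) ≤ Real.log (8 * X) := by
          rcases Nat.eq_zero_or_pos (Nat.sqrt x) with h0 | h0
          · rw [h0]
            simp only [Nat.cast_zero, Real.log_zero]
            exact Real.log_nonneg (by linarith)
          · refine Real.log_le_log (by exact_mod_cast h0) ?_
            have : (Nat.sqrt x : ℝ) ≤ X := by exact_mod_cast (Nat.sqrt_le_self x).trans hx
            linarith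
        linarith
    _ = _ := by
        have h4 : ((R : ℝ) * X) ^ ε = ((R : ℝ) * X) ^ (ε / 2) * ((R : ℝ) * X) ^ (ε / 2) := by
          rw [← Real.rpow_add (by positivity)]; congr 1; ring
        rw [h4]
        ring

end Pool.Agent.L5helper84.BR
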