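import Pool.Agent.L5helper84.BR.QP
import Pool.Agent.Q48.MDS.Series
import Pool.Agent.Helper112.Arith

set_option autoImplicit false

/-!
Sums of the Kronecker symbol over the fundamental discriminants: the mean over all moduli.
-/

namespace Pool.Agent.L5helper84.BR

open Finset
open Pool.Agent.H306R2.RZ (js osf sqf LSB)
open Pool.Agent.Q48.MDS (kronTwo kron FundDisc kron_mul abs_kron_le kron_one_left)
open Pool.Agent.N879.QM (GkT gkT_sum gk_sum_decomp)

open Classical in
/-- sums over fundamental discriminants `> 1` -/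
noncomputable def SS (m x : ℕ) : ℝ := ∑ d ∈ Icc 1 x, if FundDisc d ∧ 1 < d then (kron d m : ℝ) else 0

open Classical in
/-- sums over all fundamental discriminants -/
noncomputable def S1 (m x : ℕ) : ℝ := ∑ d ∈ Icc 1 x, if FundDisc d then (kron d m : ℝ) else 0

lemma kron_absR (d n : ℕ) : |(kron d n : ℝ)| ≤ 1 := by
  have := abs_kron_le d n
  rw [← Int.cast_abs]
  exact_mod_cast this

lemma SS_S1 (m x : ℕ) : |SS m x - S1 m x| ≤ 1 := by
  classical
  unfold SS S1
  rw [← sum_sub_distrib]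
  have h1 : ∀ d ∈ Icc 1 x, ((if FundDisc d ∧ 1 < d then (kron d m : ℝ) else 0) - if FundDisc d then (kron d m : ℝ) else 0) =
      if d = 1 then -(if FundDisc 1 then (kron 1 m : ℝ) else 0) else 0 := by
    intro d hd
    rw [mem_Icc] at hd
    by_cases hd1 : d = 1
    · subst hd1
      simp
    · have : 1 < d := by omega
      rw [if_neg hd1]
      by_cases hF : FundDisc d
      · rw [if_pos ⟨hF, this⟩, if_pos hF, sub_self]
      · rw [if_neg (fun h => hF h.1), if_neg hF, sub_self]
  rw [sum_congr rfl h1, sum_ite_eq']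
  split_ifs
  · rw [abs_neg]; exact kron_absR 1 m
  · simp
  · simp

open Classical in
lemma S1_eq (K : ℕ → ℝ) (x : ℕ) : ∑ d ∈ Icc 1 x, (if FundDisc d then K d else 0) =
    ∑ d ∈ Icc 1 x, (if Squarefree d then (if d % 4 = 1 then K d else 0) else 0) +
    (∑ e ∈ Icc 1 (x / 4), (if Squarefree e then (if e % 4 = 3 then K (4 * e) else 0) else 0) +
    ∑ e ∈ Icc 1 (x / 4 / 2), (if Squarefree e then (if e % 2 = 1 then K (8 * e) else 0) else 0)) := by
  have h1 : ∀ d ∈ Icc 1 x, (if FundDisc d then K d else 0) =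
      (if Squarefree d then (if d % 4 = 1 then K d else 0) else 0) +
      (if 4 ∣ d then (if Squarefree (d / 4) ∧ (d / 4 % 4 = 2 ∨ d / 4 % 4 = 3) then K d else 0) else 0) := by
    intro d hd
    rw [mem_Icc] at hd
    by_cases h4 : 4 ∣ d
    · obtain ⟨e, rfl⟩ := h4
      have e1 : 4 * e / 4 = e := Nat.mul_div_cancel_left e (by norm_num)
      have e2 : (4 * e) % 4 ≠ 1 := by omega
      rw [if_pos (Dvd.intro e rfl), e1]
      have e3 : (if Squarefree (4 * e) then (if 4 * e % 4 = 1 then K (4 * e) else 0) else 0) = 0 := by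
        rw [if_neg e2]; simp
      rw [e3, zero_add]
      have e4 : FundDisc (4 * e) ↔ (Squarefree e ∧ (e % 4 = 2 ∨ e % 4 = 3)) := by
        constructor
        · rintro (⟨h, -⟩ | ⟨m, hm, h, hs⟩)
          · exact absurd h e2
          · have : e = m := by omega
            subst this
            exact ⟨hs, h⟩
        · rintro ⟨hs, h⟩
          exact Or.inr ⟨e, rfl, h, hs⟩
      by_cases hF : FundDisc (4 * e)
      · rw [if_pos hF, if_pos (e4.1 hF)]
      · rw [if_neg hF, if_neg (fun h => hF (e4.2 h))]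
    · rw [if_neg h4, add_zero]
      have e4 : FundDisc d ↔ (Squarefree d ∧ d % 4 = 1) := by
        constructor
        · rintro (⟨h, hs⟩ | ⟨m, hm, h, hs⟩)
          · exact ⟨hs, h⟩
          · exact absurd ⟨m, hm⟩ h4
        · rintro ⟨hs, h⟩
          exact Or.inl ⟨h, hs⟩
      by_cases hF : FundDisc d
      · rw [if_pos hF, if_pos (e4.1 hF).1, if_pos (e4.1 hF).2]
      · rw [if_neg hF]
        by_cases hs : Squarefree d
        · rw [if_pos hs, if_neg (fun h => hF (e4.2 ⟨hs, h⟩))]
        · rw [if_neg hs]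
  rw [sum_congr rfl h1, sum_add_distrib]
  congr 1
  rw [sum_mult 4 x (by norm_num) (fun d => if Squarefree (d / 4) ∧ (d / 4 % 4 = 2 ∨ d / 4 % 4 = 3) then K d else 0)]
  have h2 : ∀ e ∈ Icc 1 (x / 4), (if Squarefree (4 * e / 4) ∧ (4 * e / 4 % 4 = 2 ∨ 4 * e / 4 % 4 = 3) then K (4 * e) else 0) =
      (if Squarefree e then (if e % 4 = 3 then K (4 * e) else 0) else 0) +
      (if 2 ∣ e then (if Squarefree (e / 2) ∧ e / 2 % 2 = 1 then K (4 * e) else 0) else 0) := by
    intro e he
    rw [mem_Icc] at he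
    have e1 : 4 * e / 4 = e := Nat.mul_div_cancel_left e (by norm_num)
    rw [e1]
    by_cases h2 : 2 ∣ e
    · obtain ⟨c, rfl⟩ := h2
      have e2 : 2 * c / 2 = c := Nat.mul_div_cancel_left c (by norm_num)
      rw [if_pos (Dvd.intro c rfl), e2]
      have e3 : (if Squarefree (2 * c) then (if 2 * c % 4 = 3 then K (4 * (2 * c)) else 0) else 0) = 0 := by
        rw [if_neg (show ¬ (2 * c % 4 = 3) by omega)]; simp
      rw [e3, zero_add]
      have e4 : (Squarefree (2 * c) ∧ (2 * c % 4 = 2 ∨ 2 * c % 4 = 3)) ↔ (Squarefree c ∧ c % 2 = 1) := by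
        constructor
        · rintro ⟨hs, h⟩
          refine ⟨hs.squarefree_of_dvd (Dvd.intro_left 2 rfl), by omega⟩
        · rintro ⟨hs, h⟩
          refine ⟨?_, by omega⟩
          have hco : Nat.Coprime 2 c := (Nat.coprime_two_left).2 (Nat.odd_iff.2 h)
          exact (Nat.squarefree_mul hco).2 ⟨Nat.prime_two.squarefree, hs⟩
      by_cases hF : (Squarefree c ∧ c % 2 = 1)
      · rw [if_pos hF, if_pos (e4.2 hF)]
      · rw [if_neg hF, if_neg (fun h => hF (e4.1 h))]
    · rw [if_neg h2, add_zero]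
      have h3 : ¬ (e % 4 = 2) := fun h => h2 (by omega)
      by_cases hs : Squarefree e
      · rw [if_pos hs]
        by_cases h4 : e % 4 = 3
        · rw [if_pos h4, if_pos ⟨hs, Or.inr h4⟩]
        · rw [if_neg h4, if_neg (fun h => h.2.elim h3 h4)]
      · rw [if_neg hs, if_neg (fun h => hs h.1)]
  rw [sum_congr rfl h2, sum_add_distrib]
  congr 1
  rw [sum_mult 2 (x / 4) (by norm_num) (fun e => if Squarefree (e / 2) ∧ e / 2 % 2 = 1 then K (4 * e) else 0)]
  refine sum_congr rfl fun c _ => ?_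
  have e2 : 2 * c / 2 = c := Nat.mul_div_cancel_left c (by norm_num)
  have e3 : 4 * (2 * c) = 8 * c := by ring
  simp only [e2, e3]
  by_cases hs : Squarefree c
  · rw [if_pos hs]
    by_cases h4 : c % 2 = 1
    · rw [if_pos h4, if_pos ⟨hs, h4⟩]
    · rw [if_neg h4, if_neg (fun h => h4 h.2)]
  · rw [if_neg hs, if_neg (fun h => hs h.1)]

/-- the two characters -/
def i1 (v : ℕ) : Fin 4 := if Even v then 0 else 2
/-- the two characters -/
def i2 (v : ℕ) : Fin 4 := if Even v then 1 else 3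

lemma kron_eq {v n : ℕ} (hn : Odd n) (d : ℕ) : kron d (2 ^ v * n) = kronTwo d ^ v * jacobiSym (d : ℤ) n := by
  unfold kron
  have h0 : n ≠ 0 := by rintro rfl; exact absurd hn (by decide)
  have h1 : padicValNat 2 (2 ^ v * n) = v := by
    have : Fact (Nat.Prime 2) := ⟨Nat.prime_two⟩
    rw [padicValNat.mul (by positivity) h0, padicValNat.prime_pow, padicValNat.eq_zero_of_not_dvd, add_zero]
    intro h
    exact (Nat.not_even_iff_odd.2 hn) (even_iff_two_dvd.2 h)
  rw [h1, Nat.mul_div_cancel_left n (by positivity)]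

lemma p1 {v n : ℕ} (hn : Odd n) (d : ℕ) : (if d % 4 = 1 then (kron d (2 ^ v * n) : ℝ) else 0) =
    ((ff (i1 v) n d : ℝ) + ff (i2 v) n d) / 2 := by
  rw [kron_eq hn]
  have e : ((ff (i1 v) n d : ℝ) + ff (i2 v) n d) / 2 =
      (((ev (i1 v) (d : ZMod 8) + ev (i2 v) (d : ZMod 8) : ℤ) : ℝ) / 2) * (jacobiSym (d : ℤ) n : ℝ) := by
    unfold ff
    push_cast
    ring
  rw [e]
  unfold i1 i2
  by_cases hv : Even v
  · rw [if_pos hv, if_pos hv, ev01]
    by_cases h : d % 4 = 1
    · rw [if_pos h, if_pos h]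
      have h2 : kronTwo d ^ v = 1 := by
        obtain ⟨w, hw⟩ := hv
        have h3 : kronTwo d = 1 ∨ kronTwo d = -1 := by
          unfold kronTwo
          have : d % 8 = 1 ∨ d % 8 = 5 := by omega
          rcases this with h | h <;> simp [h]
        have h4 : kronTwo d ^ 2 = 1 := by rcases h3 with h | h <;> rw [h] <;> norm_num
        rw [hw, ← two_mul, pow_mul, h4, one_pow]
      rw [h2]
      push_cast
      ring
    · rw [if_neg h, if_neg h]
      norm_num
  · rw [if_neg hv, if_neg hv, ev23]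
    by_cases h : d % 4 = 1
    · rw [if_pos h, if_pos h]
      have h2 : kronTwo d ^ v = kronTwo d := by
        obtain ⟨w, hw⟩ := Nat.not_even_iff_odd.1 hv
        have h3 : kronTwo d = 1 ∨ kronTwo d = -1 := by
          unfold kronTwo
          have : d % 8 = 1 ∨ d % 8 = 5 := by omega
          rcases this with h | h <;> simp [h]
        have h4 : kronTwo d ^ 2 = 1 := by rcases h3 with h | h <;> rw [h] <;> norm_num
        rw [hw, pow_succ, pow_mul, h4, one_pow, one_mul]
      rw [h2]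
      push_cast
      ring
    · rw [if_neg h, if_neg h]
      norm_num

lemma j2 {n : ℕ} (hn : Odd n) : jacobiSym 2 n ^ 2 = 1 := by
  apply jacobiSym.sq_one
  have : Int.gcd 2 (n : ℤ) = Nat.gcd 2 n := rfl
  rw [this]
  exact (Nat.coprime_two_left).2 hn

lemma p2 {v n : ℕ} (hn : Odd n) (e : ℕ) : (if e % 4 = 3 then (kron (4 * e) (2 ^ v * n) : ℝ) else 0) =
    if v = 0 then ((ff 0 n e : ℝ) - ff 1 n e) / 2 else 0 := by
  rw [kron_eq hn]
  by_cases hv : v = 0
  · rw [if_pos hv, hv, pow_zero, one_mul]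
    have e1 : ((ff 0 n e : ℝ) - ff 1 n e) / 2 =
        (((ev 0 (e : ZMod 8) - ev 1 (e : ZMod 8) : ℤ) : ℝ) / 2) * (jacobiSym (e : ℤ) n : ℝ) := by
      unfold ff
      push_cast
      ring
    have e2 : jacobiSym ((4 * e : ℕ) : ℤ) n = jacobiSym (e : ℤ) n := by
      have : ((4 * e : ℕ) : ℤ) = 2 * (2 * (e : ℤ)) := by push_cast; ring
      rw [this, jacobiSym.mul_left, jacobiSym.mul_left, ← mul_assoc, ← pow_two, j2 hn, one_mul]
    rw [e1, ev01', e2]
    split_ifs <;> norm_num
  · rw [if_neg hv]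
    have e1 : kronTwo (4 * e) = 0 := by
      unfold kronTwo
      have : (4 * e) % 8 = 0 ∨ (4 * e) % 8 = 4 := by omega
      rcases this with h | h <;> simp [h]
    rw [e1, zero_pow hv]
    simp

lemma p3 {v n : ℕ} (hn : Odd n) (e : ℕ) : (if e % 2 = 1 then (kron (8 * e) (2 ^ v * n) : ℝ) else 0) =
    if v = 0 then (jacobiSym 2 n : ℝ) * (ff 0 n e : ℝ) else 0 := by
  rw [kron_eq hn]
  by_cases hv : v = 0
  · rw [if_pos hv, hv, pow_zero, one_mul]
    have e2 : jacobiSym ((8 * e : ℕ) : ℤ) n = jacobiSym 2 n * jacobiSym (e : ℤ) n := by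
      have : ((8 * e : ℕ) : ℤ) = 2 * (2 * (2 * (e : ℤ))) := by push_cast; ring
      have h2 := j2 hn
      rw [this, jacobiSym.mul_left, jacobiSym.mul_left, jacobiSym.mul_left]
      calc jacobiSym 2 n * (jacobiSym 2 n * (jacobiSym 2 n * jacobiSym (e : ℤ) n)) =
          jacobiSym 2 n ^ 2 * (jacobiSym 2 n * jacobiSym (e : ℤ) n) := by ring
        _ = _ := by rw [h2, one_mul]
    unfold ff
    rw [ev0, e2]
    split_ifs
    · push_cast; ring
    · norm_num
  · rw [if_neg hv]
    have e1 : kronTwo (8 * e) = 0 := by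
      unfold kronTwo
      have : (8 * e) % 8 = 0 := by omega
      simp [this]
    rw [e1, zero_pow hv]
    simp

theorem S1_id {v n : ℕ} (hn : Odd n) (x : ℕ) : S1 (2 ^ v * n) x = (QQ (i1 v) n x + QQ (i2 v) n x) / 2 +
    if v = 0 then (QQ 0 n (x / 4) - QQ 1 n (x / 4)) / 2 + (jacobiSym 2 n : ℝ) * QQ 0 n (x / 4 / 2) else 0 := by
  unfold S1
  rw [S1_eq (fun d => (kron d (2 ^ v * n) : ℝ))]
  simp only [p1 hn, p2 hn, p3 hn]
  unfold QQ
  congr 1
  · rw [← sum_add_distrib, sum_div]
    refine sum_congr rfl fun d _ => ?_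
    split_ifs <;> ring
  · by_cases hv : v = 0
    · simp only [if_pos hv]
      congr 1
      · rw [← sum_sub_distrib, sum_div]
        refine sum_congr rfl fun d _ => ?_
        split_ifs <;> ring
      · rw [mul_sum]
        refine sum_congr rfl fun d _ => ?_
        split_ifs <;> ring
    · simp only [if_neg hv]
      simp

end Pool.Agent.L5helper84.BR
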