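import Pool.Agent.L5helper84.BR.SM

set_option autoImplicit false

/-!
Sums of the Kronecker symbol over the fundamental discriminants: the mean over all moduli, II.
-/

namespace Pool.Agent.L5helper84.BR

open Finset
open Pool.Agent.H306R2.RZ (js osf sqf LSB)
open Pool.Agent.Q48.MDS (kronTwo kron FundDisc kron_mul abs_kron_le kron_one_left)
open Pool.Agent.N879.QM (GkT gkT_sum gk_sum_decomp)

/-- the main term -/
noncomputable def kk (v n : ℕ) : ℝ := (kap (i1 v) n + kap (i2 v) n) / 2 +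
    if v = 0 then (kap 0 n - kap 1 n) / 2 / 4 + (jacobiSym 2 n : ℝ) * kap 0 n / 8 else 0

/-- the main term -/
noncomputable def KK (m : ℕ) : ℝ := kk (padicValNat 2 m) (m / 2 ^ padicValNat 2 m)

/-- the error -/
noncomputable def BB (n x : ℕ) : ℝ := 5 + ∑ i : Fin 4, (EE i n x + EE i n (x / 4) + EE i n (x / 4 / 2) + 2 * EE i n 1)

lemma EE_nonneg (i : Fin 4) (n x : ℕ) : 0 ≤ EE i n x := abs_nonneg _

lemma kap_le (i : Fin 4) (n : ℕ) : |kap i n| ≤ EE i n 1 + 1 := by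
  have h1 : |QQ i n 1| ≤ 1 := by
    unfold QQ
    rw [Icc_self, sum_singleton]
    split_ifs
    · exact ff_absR i n 1
    · simp
  unfold EE
  have h2 : kap i n = QQ i n 1 - (QQ i n 1 - kap i n * ((1 : ℕ) : ℝ)) := by push_cast; ring
  calc |kap i n| = |QQ i n 1 - (QQ i n 1 - kap i n * ((1 : ℕ) : ℝ))| := by rw [← h2]
    _ ≤ |QQ i n 1| + |QQ i n 1 - kap i n * ((1 : ℕ) : ℝ)| := abs_sub _ _
    _ ≤ _ := by linarith

lemma QQ_floor (i : Fin 4) (n x g : ℕ) (hg : 1 ≤ g) (y : ℕ) (hy : y = x / g) :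
    |QQ i n y - kap i n * ((x : ℝ) / g)| ≤ EE i n y + |kap i n| := by
  have h1 := floor_err x g hg
  rw [← hy] at h1
  have e : QQ i n y - kap i n * ((x : ℝ) / g) = (QQ i n y - kap i n * y) + kap i n * ((y : ℝ) - (x : ℝ) / g) := by ring
  rw [e]
  refine (abs_add_le _ _).trans ?_
  rw [abs_mul]
  have h2 : |kap i n| * |(y : ℝ) - (x : ℝ) / g| ≤ |kap i n| * 1 := mul_le_mul_of_nonneg_left h1 (abs_nonneg _)
  unfold EE
  linarith

lemma single (n x : ℕ) (f : Fin 4 → ℝ) (hf : ∀ i, 0 ≤ f i) (i j : Fin 4) (hij : i ≠ j) : f i + f j ≤ ∑ i, f i := by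
  have h1 : ({i, j} : Finset (Fin 4)) ⊆ univ := subset_univ _
  have h2 := sum_le_sum_of_subset_of_nonneg h1 (fun k _ _ => hf k)
  rw [sum_pair hij] at h2
  exact h2

lemma i12 (v : ℕ) : i1 v ≠ i2 v := by
  unfold i1 i2
  split_ifs <;> decide

theorem SS_err {v n : ℕ} (hn : Odd n) (x : ℕ) : |SS (2 ^ v * n) x - kk v n * x| ≤ BB n x := by
  have h1 := SS_S1 (2 ^ v * n) x
  have h2 : |S1 (2 ^ v * n) x - kk v n * x| ≤ 4 + ∑ i : Fin 4, (EE i n x + EE i n (x / 4) + EE i n (x / 4 / 2) + 2 * EE i n 1) := by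
    rw [S1_id hn]
    have a1 : |(QQ (i1 v) n x + QQ (i2 v) n x) / 2 - (kap (i1 v) n + kap (i2 v) n) / 2 * x| ≤ ∑ i : Fin 4, EE i n x := by
      refine le_trans ?_ (single n x (fun i => EE i n x) (fun i => EE_nonneg i n x) _ _ (i12 v))
      have e : (QQ (i1 v) n x + QQ (i2 v) n x) / 2 - (kap (i1 v) n + kap (i2 v) n) / 2 * x =
          (QQ (i1 v) n x - kap (i1 v) n * x) / 2 + (QQ (i2 v) n x - kap (i2 v) n * x) / 2 := by ring
      rw [e]
      refine (abs_add_le _ _).trans ?_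
      rw [abs_div, abs_div, abs_two]
      have g1 := EE_nonneg (i1 v) n x
      have g2 := EE_nonneg (i2 v) n x
      unfold EE at g1 g2 ⊢
      linarith
    by_cases hv : v = 0
    · have hk : kk v n = (kap (i1 v) n + kap (i2 v) n) / 2 + ((kap 0 n - kap 1 n) / 2 / 4 +
          (jacobiSym 2 n : ℝ) * kap 0 n / 8) := by
        unfold kk
        rw [if_pos hv]
      rw [if_pos hv, hk]
      have b1 := QQ_floor 0 n x 4 (by norm_num) (x / 4) rfl
      have b2 := QQ_floor 1 n x 4 (by norm_num) (x / 4) rfl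
      have b3 := QQ_floor 0 n x 8 (by norm_num) (x / 4 / 2) (Nat.div_div_eq_div_mul x 4 2)
      have c0 := kap_le 0 n
      have c1 := kap_le 1 n
      push_cast at b1 b2 b3
      have hJ : |(jacobiSym 2 n : ℝ)| ≤ 1 := by
        rcases jacobiSym.trichotomy 2 n with h | h | h <;> rw [h] <;> norm_num
      have b4 : |(jacobiSym 2 n : ℝ) * (QQ 0 n (x / 4 / 2) - kap 0 n * ((x : ℝ) / 8))| ≤ EE 0 n (x / 4 / 2) + |kap 0 n| := by
        rw [abs_mul]
        exact (mul_le_of_le_one_left (abs_nonneg _) hJ).trans b3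
      have e : (QQ (i1 v) n x + QQ (i2 v) n x) / 2 + ((QQ 0 n (x / 4) - QQ 1 n (x / 4)) / 2 +
          (jacobiSym 2 n : ℝ) * QQ 0 n (x / 4 / 2)) - ((kap (i1 v) n + kap (i2 v) n) / 2 + ((kap 0 n - kap 1 n) / 2 / 4 +
          (jacobiSym 2 n : ℝ) * kap 0 n / 8)) * x =
          ((QQ (i1 v) n x + QQ (i2 v) n x) / 2 - (kap (i1 v) n + kap (i2 v) n) / 2 * x) +
          ((QQ 0 n (x / 4) - kap 0 n * ((x : ℝ) / 4)) / 2 - (QQ 1 n (x / 4) - kap 1 n * ((x : ℝ) / 4)) / 2 +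
            (jacobiSym 2 n : ℝ) * (QQ 0 n (x / 4 / 2) - kap 0 n * ((x : ℝ) / 8))) := by ring
      rw [e]
      refine (abs_add_le _ _).trans ?_
      have d1 : |(QQ 0 n (x / 4) - kap 0 n * ((x : ℝ) / 4)) / 2 - (QQ 1 n (x / 4) - kap 1 n * ((x : ℝ) / 4)) / 2 +
            (jacobiSym 2 n : ℝ) * (QQ 0 n (x / 4 / 2) - kap 0 n * ((x : ℝ) / 8))| ≤
          (EE 0 n (x / 4) + |kap 0 n|) / 2 + (EE 1 n (x / 4) + |kap 1 n|) / 2 + (EE 0 n (x / 4 / 2) + |kap 0 n|) := by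
        refine (abs_add_le _ _).trans (add_le_add ?_ b4)
        refine (abs_sub _ _).trans ?_
        rw [abs_div, abs_div, abs_two]
        linarith
      have f1 := single n x (fun i => EE i n (x / 4)) (fun i => EE_nonneg i n _) 0 1 (by decide)
      have f2 := single n x (fun i => EE i n (x / 4 / 2)) (fun i => EE_nonneg i n _) 0 1 (by decide)
      have f3 := single n x (fun i => EE i n 1) (fun i => EE_nonneg i n _) 0 1 (by decide)
      have g0 := EE_nonneg 0 n (x / 4)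
      have g1 := EE_nonneg 1 n (x / 4)
      have g2 := EE_nonneg 0 n (x / 4 / 2)
      have g3 := EE_nonneg 1 n (x / 4 / 2)
      have g4 := EE_nonneg 0 n 1
      have g5 := EE_nonneg 1 n 1
      simp only [sum_add_distrib, ← mul_sum]
      linarith
    · have hk : kk v n = (kap (i1 v) n + kap (i2 v) n) / 2 := by
        unfold kk
        rw [if_neg hv, add_zero]
      rw [if_neg hv, hk, add_zero]
      refine a1.trans ?_
      simp only [sum_add_distrib, ← mul_sum]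
      have g1 : 0 ≤ ∑ i : Fin 4, EE i n (x / 4) := sum_nonneg fun i _ => EE_nonneg i n _
      have g2 : 0 ≤ ∑ i : Fin 4, EE i n (x / 4 / 2) := sum_nonneg fun i _ => EE_nonneg i n _
      have g3 : 0 ≤ ∑ i : Fin 4, EE i n 1 := sum_nonneg fun i _ => EE_nonneg i n _
      linarith
  have e : SS (2 ^ v * n) x - kk v n * x = (SS (2 ^ v * n) x - S1 (2 ^ v * n) x) + (S1 (2 ^ v * n) x - kk v n * x) := by
    ring
  rw [e]
  refine (abs_add_le _ _).trans ?_
  unfold BB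
  linarith

lemma KK_eq {v n : ℕ} (hn : Odd n) : KK (2 ^ v * n) = kk v n := by
  have h0 : n ≠ 0 := by rintro rfl; exact absurd hn (by decide)
  have h1 : padicValNat 2 (2 ^ v * n) = v := by
    have : Fact (Nat.Prime 2) := ⟨Nat.prime_two⟩
    rw [padicValNat.mul (by positivity) h0, padicValNat.prime_pow, padicValNat.eq_zero_of_not_dvd, add_zero]
    intro h
    exact (Nat.not_even_iff_odd.2 hn) (even_iff_two_dvd.2 h)
  unfold KK
  rw [h1, Nat.mul_div_cancel_left n (by positivity)]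

/-- **the mean of the character sums over the fundamental discriminants** -/
theorem sm (ε : ℝ) (hε : 0 < ε) : ∃ C : ℝ, 0 < C ∧ ∀ N x X : ℕ, 1 ≤ N → 1 ≤ X → x ≤ X →
    ∑ m ∈ Icc 1 N, |SS m x - KK m * x| ≤ C * ((N : ℝ) * X) ^ ε * (N * √X) := by
  obtain ⟨C, hC, h⟩ := qm (ε / 2) (by positivity)
  obtain ⟨D, hD, hdiv⟩ := Pool.Agent.Helper112.divisor_bound (ε / 2) (by positivity)
  refine ⟨4 * ((5 + 20 * C) * D), by positivity, fun N x X hN hX hx => ?_⟩
  have hN1 : (1 : ℝ) ≤ N := by exact_mod_cast hN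
  have hX1 : (1 : ℝ) ≤ X := by exact_mod_cast hX
  have hN0 : (0 : ℝ) < N := by linarith
  have hX0 : (0 : ℝ) < X := by linarith
  have hNX1 : (1 : ℝ) ≤ (N : ℝ) * X := by nlinarith
  have hsX : 1 ≤ √(X : ℝ) := by rw [Real.one_le_sqrt]; exact hX1
  have hpow : 1 ≤ ((N : ℝ) * X) ^ (ε / 2) := Real.one_le_rpow hNX1 (by positivity)
  refine (gk_sum_decomp N (fun m => |SS m x - KK m * x|) (fun m => abs_nonneg _)).trans ?_
  have h1 : ∀ p ∈ GkT N, ∑ m ∈ osf (N / (2 ^ p.1 * p.2 ^ 2)),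
      (if Odd p.2 then |SS (2 ^ p.1 * (m * p.2 ^ 2)) x - KK (2 ^ p.1 * (m * p.2 ^ 2)) * x| else 0) ≤
      ((5 + 20 * C) * D) * ((N : ℝ) * X) ^ ε * (N * √X) * (1 / (2 ^ p.1 * (p.2 : ℝ) ^ 2)) := by
    intro p hp
    unfold GkT at hp
    rw [mem_filter, mem_product, mem_Icc] at hp
    obtain ⟨⟨-, hp2⟩, hp3⟩ := hp
    by_cases ho : Odd p.2
    swap
    · simp only [if_neg ho, sum_const_zero]
      positivity
    simp only [if_pos ho]
    have hr : p.2 ≠ 0 := by omega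
    set R := N / (2 ^ p.1 * p.2 ^ 2) with hR
    have hR1 : 1 ≤ R := by
      rw [hR, Nat.le_div_iff_mul_le (by positivity), one_mul]
      exact hp3
    have hRr : (R : ℝ) ≤ N * (1 / (2 ^ p.1 * (p.2 : ℝ) ^ 2)) := by
      have := @Nat.cast_div_le ℝ _ _ _ N (2 ^ p.1 * p.2 ^ 2)
      rw [← hR] at this
      push_cast at this
      rw [mul_one_div]
      exact this
    have hRN : (R : ℝ) ≤ N := by exact_mod_cast Nat.div_le_self _ _
    have hR0 : (0 : ℝ) ≤ R := Nat.cast_nonneg _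
    have hRpos : (1 : ℝ) ≤ R := by exact_mod_cast hR1
    have hd : (p.2.divisors.card : ℝ) ≤ D * ((N : ℝ) * X) ^ (ε / 2) := by
      refine (hdiv p.2 (by omega)).trans (mul_le_mul_of_nonneg_left ?_ hD.le)
      refine Real.rpow_le_rpow (by positivity) ?_ (by positivity)
      have : (p.2 : ℝ) ≤ N := by exact_mod_cast hp2.2
      nlinarith
    have hd1 : 1 ≤ (p.2.divisors.card : ℝ) := by
      have : 0 < p.2.divisors.card := card_pos.2 ⟨1, Nat.one_mem_divisors.2 hr⟩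
      exact_mod_cast this
    set T : ℝ := C * ((R : ℝ) * X) ^ (ε / 2) * (R * √X) * p.2.divisors.card with hT
    have hq : ∀ (i : Fin 4) (y : ℕ), y ≤ X → ∑ n ∈ osf R, EE i (n * p.2 ^ 2) y ≤ T := fun i y hy =>
      h i R p.2 y X hR1 hr hy hX
    have h2 : ∑ m ∈ osf R, |SS (2 ^ p.1 * (m * p.2 ^ 2)) x - KK (2 ^ p.1 * (m * p.2 ^ 2)) * x| ≤
        ∑ m ∈ osf R, BB (m * p.2 ^ 2) x := by
      refine sum_le_sum fun m hm => ?_
      have hmo : Odd (m * p.2 ^ 2) := (osf_mem hm).2.2.1.mul (ho.pow)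
      rw [KK_eq hmo]
      exact SS_err hmo x
    have h3 : ∑ m ∈ osf R, BB (m * p.2 ^ 2) x ≤ 5 * R + 20 * T := by
      unfold BB
      rw [sum_add_distrib, sum_comm]
      have e1 : ∑ _m ∈ osf R, (5 : ℝ) ≤ 5 * R := by
        rw [sum_const, nsmul_eq_mul, mul_comm]
        have : ((osf R).card : ℝ) ≤ R := by exact_mod_cast osf_card R
        linarith
      have e2 : ∑ i : Fin 4, ∑ m ∈ osf R, (EE i (m * p.2 ^ 2) x + EE i (m * p.2 ^ 2) (x / 4) +
          EE i (m * p.2 ^ 2) (x / 4 / 2) + 2 * EE i (m * p.2 ^ 2) 1) ≤ ∑ _i : Fin 4, 5 * T := by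
        refine sum_le_sum fun i _ => ?_
        rw [sum_add_distrib, sum_add_distrib, sum_add_distrib, ← mul_sum]
        have a1 := hq i x hx
        have a2 := hq i (x / 4) ((Nat.div_le_self _ _).trans hx)
        have a3 := hq i (x / 4 / 2) (((Nat.div_le_self _ _).trans (Nat.div_le_self _ _)).trans hx)
        have a4 := hq i 1 hX
        linarith
      have e3 : ∑ _i : Fin 4, 5 * T = 20 * T := by
        rw [sum_const, card_univ, Fintype.card_fin, nsmul_eq_mul]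
        push_cast
        ring
      rw [e3] at e2
      exact add_le_add e1 e2
    have h4 : T ≤ C * D * ((N : ℝ) * X) ^ ε * (N * √X) * (1 / (2 ^ p.1 * (p.2 : ℝ) ^ 2)) := by
      have e0 : ((N : ℝ) * X) ^ ε = ((N : ℝ) * X) ^ (ε / 2) * ((N : ℝ) * X) ^ (ε / 2) := by
        rw [← Real.rpow_add (by positivity)]; congr 1; ring
      calc T ≤ C * ((N : ℝ) * X) ^ (ε / 2) * ((N * (1 / (2 ^ p.1 * (p.2 : ℝ) ^ 2))) * √X) *
            (D * ((N : ℝ) * X) ^ (ε / 2)) := by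
              rw [hT]
              gcongr
        _ = _ := by rw [e0]; ring
    have h5 : (R : ℝ) ≤ D * ((N : ℝ) * X) ^ ε * (N * √X) * (1 / (2 ^ p.1 * (p.2 : ℝ) ^ 2)) := by
      have e0 : ((N : ℝ) * X) ^ ε = ((N : ℝ) * X) ^ (ε / 2) * ((N : ℝ) * X) ^ (ε / 2) := by
        rw [← Real.rpow_add (by positivity)]; congr 1; ring
      have e1 : 1 ≤ D * ((N : ℝ) * X) ^ (ε / 2) := hd1.trans hd
      have e2 : 1 ≤ (D * ((N : ℝ) * X) ^ (ε / 2)) * ((N : ℝ) * X) ^ (ε / 2) * √X := by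
        have := one_le_mul_of_one_le_of_one_le (one_le_mul_of_one_le_of_one_le e1 hpow) hsX
        exact this
      calc (R : ℝ) ≤ N * (1 / (2 ^ p.1 * (p.2 : ℝ) ^ 2)) := hRr
        _ ≤ (N * (1 / (2 ^ p.1 * (p.2 : ℝ) ^ 2))) * ((D * ((N : ℝ) * X) ^ (ε / 2)) * ((N : ℝ) * X) ^ (ε / 2) * √X) :=
            le_mul_of_one_le_right (by positivity) e2
        _ = _ := by rw [e0]; ring
    calc _ ≤ _ := h2
      _ ≤ _ := h3
      _ ≤ 5 * (D * ((N : ℝ) * X) ^ ε * (N * √X) * (1 / (2 ^ p.1 * (p.2 : ℝ) ^ 2))) +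
          20 * (C * D * ((N : ℝ) * X) ^ ε * (N * √X) * (1 / (2 ^ p.1 * (p.2 : ℝ) ^ 2))) := by
            linarith
      _ = _ := by ring
  refine (sum_le_sum h1).trans ?_
  rw [← mul_sum]
  have h2 := gkT_sum N
  calc ((5 + 20 * C) * D) * ((N : ℝ) * X) ^ ε * (N * √X) * ∑ p ∈ GkT N, (1 / (2 ^ p.1 * (p.2 : ℝ) ^ 2))
      ≤ ((5 + 20 * C) * D) * ((N : ℝ) * X) ^ ε * (N * √X) * 4 := mul_le_mul_of_nonneg_left h2 (by positivity)
    _ = _ := by ring

end Pool.Agent.L5helper84.BR
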