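import Pool.Agent.L5helper84.BR.AB

set_option autoImplicit false

/-!
The weights: Lipschitz constants and the integral.
-/

namespace Pool.Agent.L5helper84.BR

open Finset MeasureTheory
open Pool.Agent.L5helper17.RF (wt g1 pc sc g1_eq_min g1_of_gt wt_one hasMellin_g1' wt_cont natDegree_pc)

lemma pow_lip {x y : ℝ} (hx : 0 ≤ x) (hx1 : x ≤ 1) (hy : 0 ≤ y) (hy1 : y ≤ 1) (i : ℕ) : |x ^ i - y ^ i| ≤ i * |x - y| := by
  induction i with
  | zero => simp
  | succ n ih =>
    have e : x ^ (n + 1) - y ^ (n + 1) = x ^ n * (x - y) + y * (x ^ n - y ^ n) := by ring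
    rw [e]
    refine (abs_add_le _ _).trans ?_
    rw [abs_mul, abs_mul, abs_of_nonneg (pow_nonneg hx n), abs_of_nonneg hy]
    have h1 : x ^ n * |x - y| ≤ 1 * |x - y| := mul_le_mul_of_nonneg_right (pow_le_one₀ hx hx1) (abs_nonneg _)
    have h2 : y * |x ^ n - y ^ n| ≤ 1 * (n * |x - y|) := mul_le_mul hy1 ih (abs_nonneg _) zero_le_one
    push_cast
    linarith

/-- the Lipschitz constant -/
noncomputable def Lip (Q : Polynomial ℂ) (m : ℕ) : ℝ := ∑ i ∈ range (m + 1), ‖sc m i‖ * ‖Q.eval (-(i : ℂ))‖ * i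

lemma Lip_nonneg (Q : Polynomial ℂ) (m : ℕ) : 0 ≤ Lip Q m := sum_nonneg fun _ _ => by positivity

/-- the extended weight -/
noncomputable def fw (Q : Polynomial ℂ) (m : ℕ) (u : ℝ) : ℂ := wt Q m ((min u 1 : ℝ) : ℂ)

lemma fw_lip (Q : Polynomial ℂ) (m : ℕ) (x y : ℝ) (hx : 0 ≤ x) (hy : 0 ≤ y) :
    ‖fw Q m x - fw Q m y‖ ≤ Lip Q m * |x - y| := by
  unfold fw wt Lip
  rw [← sum_sub_distrib, sum_mul]
  refine (norm_sum_le _ _).trans (sum_le_sum fun i _ => ?_)
  have e : sc m i * Q.eval (-(i : ℂ)) * ((min x 1 : ℝ) : ℂ) ^ i - sc m i * Q.eval (-(i : ℂ)) * ((min y 1 : ℝ) : ℂ) ^ i =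
      sc m i * Q.eval (-(i : ℂ)) * (((min x 1) ^ i - (min y 1) ^ i : ℝ) : ℂ) := by
    push_cast; ring
  rw [e, norm_mul, norm_mul, Complex.norm_real, Real.norm_eq_abs, mul_assoc _ (i : ℝ)]
  refine mul_le_mul_of_nonneg_left ?_ (by positivity)
  refine (pow_lip (le_min hx zero_le_one) (min_le_right _ _) (le_min hy zero_le_one) (min_le_right _ _) i).trans ?_
  refine mul_le_mul_of_nonneg_left ?_ (Nat.cast_nonneg i)
  have := abs_min_sub_min_le_max x 1 y 1
  rw [sub_self, abs_zero, max_eq_left (abs_nonneg _)] at this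
  exact this

lemma fw_cont (Q : Polynomial ℂ) (m : ℕ) : Continuous (fw Q m) :=
  (wt_cont Q m).comp (Complex.continuous_ofReal.comp (continuous_id.min continuous_const))

lemma fw_one {Q : Polynomial ℂ} {m : ℕ} (hQ : Q.natDegree < m) (x : ℝ) (hx : 1 ≤ x) : fw Q m x = 0 := by
  unfold fw
  rw [min_eq_right hx, Complex.ofReal_one, wt_one hQ]

lemma fw_int {Q : Polynomial ℂ} {m : ℕ} (hQ : Q.natDegree < m) (h1 : Q.eval 1 = 0) : ∫ x in (0 : ℝ)..1, fw Q m x = 0 := by
  have h := (hasMellin_g1' (Q := Q) (m := m) hQ.le (w := 1) (by norm_num)).2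
  rw [h1, zero_mul] at h
  unfold mellin at h
  rw [intervalIntegral.integral_of_le zero_le_one]
  rw [← h]
  have h2 : ∀ t : ℝ, (t : ℂ) ^ ((1 : ℂ) - 1) • g1 Q m t = (Set.Ioc (0 : ℝ) 1).indicator (fun t => fw Q m t) t := by
    intro t
    rw [sub_self, Complex.cpow_zero, one_smul]
    unfold g1
    by_cases ht : t ∈ Set.Ioc (0 : ℝ) 1
    · rw [Set.indicator_of_mem ht, Set.indicator_of_mem ht]
      unfold fw
      rw [min_eq_left ht.2]
    · rw [Set.indicator_of_notMem ht, Set.indicator_of_notMem ht]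
  simp only [h2]
  rw [← integral_indicator measurableSet_Ioc, ← integral_indicator measurableSet_Ioi]
  congr 1
  funext t
  by_cases ht : t ∈ Set.Ioi (0 : ℝ)
  · rw [Set.indicator_of_mem ht]
  · rw [Set.indicator_of_notMem ht, Set.indicator_of_notMem (fun h => ht h.1)]

lemma pc_one {k : ℕ} (s : Fin k → ℂ) : (pc s).eval 1 = 0 := by
  unfold pc
  rw [Polynomial.eval_prod]
  refine prod_eq_zero (mem_univ ∅) ?_
  simp

/-- the Lipschitz constants are polynomially bounded -/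
lemma Lip_bound (k m : ℕ) (B : ℝ) (hB : 0 ≤ B) : ∃ C : ℝ, 0 ≤ C ∧ ∀ s : Fin k → ℂ, (∀ j, |(s j).re| ≤ B) →
    Lip (pc s) m ≤ C * (1 + ‖fun j => (s j).im‖) ^ (2 ^ k) := by
  set K : ℝ := m + 1 + k * (B + 3 / 2) with hK
  have hK0 : 0 ≤ K := by positivity
  refine ⟨∑ i ∈ range (m + 1), ‖sc m i‖ * K ^ (2 ^ k) * i, sum_nonneg fun _ _ => by positivity, fun s hs => ?_⟩
  unfold Lip
  rw [sum_mul]
  refine sum_le_sum fun i hi => ?_
  have him : (i : ℝ) ≤ m := by exact_mod_cast Nat.lt_succ_iff.1 (mem_range.1 hi)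
  set T : ℝ := ‖fun j => (s j).im‖ with hT
  have hT0 : 0 ≤ T := norm_nonneg _
  have h1 : ‖(pc s).eval (-(i : ℂ))‖ ≤ (K * (1 + T)) ^ (2 ^ k) := by
    unfold pc
    rw [Polynomial.eval_prod, norm_prod]
    have h2 : ∀ J ∈ (univ : Finset (Finset (Fin k))), ‖(Polynomial.X + Polynomial.C (∑ j ∈ J, (s j - 1 / 2) - 1)).eval (-(i : ℂ))‖ ≤
        K * (1 + T) := by
      intro J _
      rw [Polynomial.eval_add, Polynomial.eval_X, Polynomial.eval_C]
      have a1 : ‖-(i : ℂ)‖ = i := by rw [norm_neg, Complex.norm_natCast]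
      have a2 : ‖∑ j ∈ J, (s j - 1 / 2)‖ ≤ k * (B + T + 1 / 2) := by
        refine (norm_sum_le _ _).trans ?_
        have a3 : ∀ j ∈ J, ‖s j - 1 / 2‖ ≤ B + T + 1 / 2 := by
          intro j _
          refine (norm_sub_le _ _).trans ?_
          have a4 : ‖(1 / 2 : ℂ)‖ = 1 / 2 := by norm_num
          have a5 : ‖s j‖ ≤ |(s j).re| + |(s j).im| := Complex.norm_le_abs_re_add_abs_im _
          have a6 : |(s j).im| ≤ T := by
            have := norm_le_pi_norm (fun j => (s j).im) j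
            simpa using this
          rw [a4]
          linarith [hs j]
        refine (sum_le_sum a3).trans ?_
        rw [sum_const, nsmul_eq_mul]
        refine mul_le_mul_of_nonneg_right ?_ (by positivity)
        have : J.card ≤ k := by
          have := card_le_univ J
          rwa [Fintype.card_fin] at this
        exact_mod_cast this
      calc ‖-(i : ℂ) + (∑ j ∈ J, (s j - 1 / 2) - 1)‖ ≤ ‖-(i : ℂ)‖ + ‖∑ j ∈ J, (s j - 1 / 2) - 1‖ := norm_add_le _ _
        _ ≤ i + (‖∑ j ∈ J, (s j - 1 / 2)‖ + 1) := by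
            rw [a1]
            have := norm_sub_le (∑ j ∈ J, (s j - 1 / 2)) (1 : ℂ)
            rw [norm_one] at this
            linarith
        _ ≤ m + (k * (B + T + 1 / 2) + 1) := by linarith
        _ ≤ K * (1 + T) := by
            rw [hK]
            have hk0 : (0 : ℝ) ≤ k := Nat.cast_nonneg k
            have hm0 : (0 : ℝ) ≤ m := Nat.cast_nonneg m
            have p1 : 0 ≤ (k : ℝ) * T := mul_nonneg hk0 hT0
            have p2 : 0 ≤ (m : ℝ) * T := mul_nonneg hm0 hT0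
            have p3 : 0 ≤ (k : ℝ) * B * T := by positivity
            nlinarith
    calc ∏ J : Finset (Fin k), ‖(Polynomial.X + Polynomial.C (∑ j ∈ J, (s j - 1 / 2) - 1)).eval (-(i : ℂ))‖
        ≤ ∏ _J : Finset (Fin k), (K * (1 + T)) := prod_le_prod (fun _ _ => norm_nonneg _) h2
      _ = (K * (1 + T)) ^ (2 ^ k) := by
          rw [prod_const, card_univ, Fintype.card_finset, Fintype.card_fin]
  calc ‖sc m i‖ * ‖(pc s).eval (-(i : ℂ))‖ * i ≤ ‖sc m i‖ * (K * (1 + T)) ^ (2 ^ k) * i := by gcongr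
    _ = ‖sc m i‖ * K ^ (2 ^ k) * i * (1 + T) ^ (2 ^ k) := by rw [mul_pow]; ring

end Pool.Agent.L5helper84.BR
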